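import Mathlib

/-!
# Relations in a sequence of group elements

Supports of relations with coefficients in `{-1, 0, 1}` and independent finite sets of indices.
-/

set_option autoImplicit false

namespace NI12

open Finset

variable {G : Type} [AddCommGroup G]

/-- `R` is the support of a relation with coefficients `1` and `-1`. -/
def Dep (b : ℕ → G) (R : Finset ℕ) : Prop :=
  R.Nonempty ∧ ∃ c : ℕ → ℤ, (∀ x, x ∈ R → c x = 1 ∨ c x = -1) ∧ (∀ x, x ∉ R → c x = 0) ∧
    ∑ x ∈ R, c x • b x = 0

/-- `A` contains no support of a relation. -/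
def Ind (b : ℕ → G) (A : Finset ℕ) : Prop := ∀ R : Finset ℕ, R ⊆ A → ¬ Dep b R

lemma dep_split {b : ℕ → G} {R : Finset ℕ} (h : Dep b R) :
    ∃ P : Finset ℕ, P ⊆ R ∧ ∑ i ∈ P, b i = ∑ i ∈ R \ P, b i := by
  classical
  obtain ⟨-, c, hc, -, hs⟩ := h
  refine ⟨R.filter (fun x => c x = 1), Finset.filter_subset _ _, ?_⟩
  have e1 : ∑ x ∈ R, c x • b x
      = ∑ x ∈ R.filter (fun x => c x = 1), c x • b x
        + ∑ x ∈ R \ R.filter (fun x => c x = 1), c x • b x := by
    rw [add_comm, Finset.sum_sdiff (Finset.filter_subset _ _)]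
  have e2 : ∑ x ∈ R.filter (fun x => c x = 1), c x • b x
      = ∑ x ∈ R.filter (fun x => c x = 1), b x := by
    apply Finset.sum_congr rfl
    intro x hx
    rw [(Finset.mem_filter.mp hx).2, one_smul]
  have e3 : ∑ x ∈ R \ R.filter (fun x => c x = 1), c x • b x
      = - ∑ x ∈ R \ R.filter (fun x => c x = 1), b x := by
    rw [← Finset.sum_neg_distrib]
    apply Finset.sum_congr rfl
    intro x hx
    obtain ⟨h1, h2⟩ := Finset.mem_sdiff.mp hx
    rcases hc x h1 with h | h
    · exact absurd (Finset.mem_filter.mpr ⟨h1, h⟩) h2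
    · rw [h, neg_smul, one_smul]
  rw [e1, e2, e3] at hs
  exact add_neg_eq_zero.mp hs

lemma ind_iff (b : ℕ → G) (A : Finset ℕ) :
    Ind b A ↔ ∀ s : Finset ℕ, s ⊆ A → ∀ t : Finset ℕ, t ⊆ A →
      ∑ i ∈ s, b i = ∑ i ∈ t, b i → s = t := by
  classical
  constructor
  · intro h s hs t ht hst
    by_contra hne
    let c : ℕ → ℤ := fun x => (if x ∈ s then 1 else 0) - (if x ∈ t then 1 else 0)
    have hR : ((s \ t) ∪ (t \ s)) ⊆ A := by
      intro x hx
      rcases Finset.mem_union.mp hx with h1 | h1
      · exact hs (Finset.mem_sdiff.mp h1).1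
      · exact ht (Finset.mem_sdiff.mp h1).1
    refine h _ hR ⟨?_, c, ?_, ?_, ?_⟩
    · rw [Finset.nonempty_iff_ne_empty]
      intro h0
      apply hne
      ext x
      constructor
      · intro hx
        by_contra hx2
        have : x ∈ (s \ t) ∪ (t \ s) :=
          Finset.mem_union_left _ (Finset.mem_sdiff.mpr ⟨hx, hx2⟩)
        rw [h0] at this
        exact absurd this (Finset.notMem_empty x)
      · intro hx
        by_contra hx2
        have : x ∈ (s \ t) ∪ (t \ s) :=
          Finset.mem_union_right _ (Finset.mem_sdiff.mpr ⟨hx, hx2⟩)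
        rw [h0] at this
        exact absurd this (Finset.notMem_empty x)
    · intro x hx
      rcases Finset.mem_union.mp hx with h1 | h1
      · left
        obtain ⟨h2, h3⟩ := Finset.mem_sdiff.mp h1
        simp only [c, if_pos h2, if_neg h3, sub_zero]
      · right
        obtain ⟨h2, h3⟩ := Finset.mem_sdiff.mp h1
        simp only [c, if_pos h2, if_neg h3, zero_sub]
    · intro x hx
      by_cases h1 : x ∈ s
      · by_cases h2 : x ∈ t
        · simp only [c, if_pos h1, if_pos h2, sub_self]
        · exact absurd (Finset.mem_union_left _ (Finset.mem_sdiff.mpr ⟨h1, h2⟩)) hx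
      · by_cases h2 : x ∈ t
        · exact absurd (Finset.mem_union_right _ (Finset.mem_sdiff.mpr ⟨h2, h1⟩)) hx
        · simp only [c, if_neg h1, if_neg h2, sub_self]
    · have e0 : ∑ x ∈ (s \ t) ∪ (t \ s), c x • b x = ∑ x ∈ s ∪ t, c x • b x := by
        apply Finset.sum_subset
        · intro x hx
          rcases Finset.mem_union.mp hx with h1 | h1
          · exact Finset.mem_union_left _ (Finset.mem_sdiff.mp h1).1
          · exact Finset.mem_union_right _ (Finset.mem_sdiff.mp h1).1
        · intro x hx hx2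
          by_cases h1 : x ∈ s
          · by_cases h2 : x ∈ t
            · simp only [c, if_pos h1, if_pos h2, sub_self, zero_smul]
            · exact absurd (Finset.mem_union_left _ (Finset.mem_sdiff.mpr ⟨h1, h2⟩)) hx2
          · by_cases h2 : x ∈ t
            · exact absurd (Finset.mem_union_right _ (Finset.mem_sdiff.mpr ⟨h2, h1⟩)) hx2
            · simp only [c, if_neg h1, if_neg h2, sub_self, zero_smul]
      have e1 : ∑ x ∈ s ∪ t, c x • b x = ∑ x ∈ s, b x - ∑ x ∈ t, b x := by
        have e2 : ∀ x ∈ s ∪ t, c x • b x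
            = (if x ∈ s then b x else 0) - (if x ∈ t then b x else 0) := by
          intro x _
          simp only [c, sub_smul, ite_smul, one_smul, zero_smul]
        rw [Finset.sum_congr rfl e2, Finset.sum_sub_distrib, Finset.sum_ite_mem,
          Finset.sum_ite_mem]
        have e3 : (s ∪ t) ∩ s = s := by
          rw [Finset.inter_eq_right]; exact Finset.subset_union_left
        have e4 : (s ∪ t) ∩ t = t := by
          rw [Finset.inter_eq_right]; exact Finset.subset_union_right
        rw [e3, e4]
      rw [e0, e1, hst, sub_self]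
  · intro h R hR hD
    obtain ⟨P, hP, hs⟩ := dep_split hD
    have h1 : P = R \ P := h P (hP.trans hR) (R \ P) (Finset.sdiff_subset.trans hR) hs
    obtain ⟨x, hx⟩ := hD.1
    by_cases h2 : x ∈ P
    · have h3 : x ∈ R \ P := by rw [← h1]; exact h2
      exact (Finset.mem_sdiff.mp h3).2 h2
    · have h3 : x ∈ R \ P := Finset.mem_sdiff.mpr ⟨hx, h2⟩
      rw [← h1] at h3
      exact h2 h3

lemma dep_singleton {b : ℕ → G} {x : ℕ} (h : Dep b {x}) : b x = 0 := by
  obtain ⟨-, c, hc, -, hs⟩ := h
  rw [Finset.sum_singleton] at hs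
  rcases hc x (Finset.mem_singleton_self x) with h1 | h1
  · rw [h1, one_smul] at hs; exact hs
  · rw [h1, neg_smul, one_smul, neg_eq_zero] at hs; exact hs

/-- The hypothesis: all but few terms of every finite set of terms are independent. -/
def Hyp (b : ℕ → G) (e C : ℝ) : Prop :=
  ∀ F : Finset ℕ, ∃ A : Finset ℕ, A ⊆ F ∧ Ind b A ∧
    ((F \ A).card : ℝ) ≤ C * (F.card : ℝ) ^ (1 - e)

end NI12
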