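import Pool.Agent.NI12.Main

/-!
# The number of classes
-/

set_option autoImplicit false

namespace NI12

lemma pow_bound {e t : ℝ} (he : 0 < e) (he1 : e ≤ 1) (ht : 0 < t) {j : ℕ}
    (hj : 1 / e * Real.log t ≤ (j : ℝ)) : (1 - e) ^ j ≤ 1 / t := by
  have h1 : 1 - e ≤ Real.exp (-e) := Real.one_sub_le_exp_neg e
  have h2 : (1 - e) ^ j ≤ Real.exp (-e) ^ j := pow_le_pow_left₀ (by linarith) h1 j
  have h3 : Real.exp (-e) ^ j = Real.exp ((j : ℝ) * (-e)) := by rw [Real.exp_nat_mul]
  have h4 : Real.log t ≤ e * (j : ℝ) := by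
    have h5 := mul_le_mul_of_nonneg_left hj he.le
    have h6 : e * (1 / e * Real.log t) = Real.log t := by field_simp
    rw [h6] at h5
    exact h5
  calc (1 - e) ^ j ≤ Real.exp ((j : ℝ) * (-e)) := by rw [← h3]; exact h2
    _ ≤ Real.exp (-Real.log t) := Real.exp_le_exp.mpr (by linarith)
    _ = 1 / t := by rw [Real.exp_neg, Real.exp_log ht, one_div]

lemma exists_numbers {e C : ℝ} (he : 0 < e) (he1 : e ≤ 1) (hC : 1 ≤ C) :
    ∃ n j1 j2 : ℕ, 2 * C ^ (1 / e) ≤ (n : ℝ) ∧ cc e * cc e * (1 - e) ^ j1 ≤ 1 / 2 ∧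
      Real.logb 2 (kk e C) * cc e * (1 - e) ^ j2 ≤ 1 ∧
      (((n + j2) + 2 * (4 * j1 + 1) : ℕ) : ℝ)
        ≤ 100 * (C ^ (1 / e) + 1 / e * Real.log (2 / e)) := by
  have hD := D_ge he hC
  have hcc := cc_pos he
  obtain ⟨D, hDd⟩ : ∃ D : ℝ, D = C ^ (1 / e) := ⟨_, rfl⟩
  obtain ⟨L, hL⟩ : ∃ L : ℝ, L = Real.log (2 / e) := ⟨_, rfl⟩
  obtain ⟨q, hq⟩ : ∃ q : ℝ, q = 1 / e := ⟨_, rfl⟩
  have hq1 : 1 ≤ q := by rw [hq, le_div_iff₀ he]; linarith
  have hlog2 : Real.log 2 ≤ L := by
    rw [hL]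
    apply Real.log_le_log (by norm_num)
    rw [le_div_iff₀ he]
    linarith
  have hl2 : (0.69 : ℝ) < Real.log 2 := by
    have := Real.log_two_gt_d9
    linarith
  have hL0 : 0.69 < L := by linarith
  have hqL : 0.69 < q * L := by nlinarith
  have hlogq : Real.log q = L - Real.log 2 := by
    rw [hL, hq, Real.log_div (by norm_num) he.ne', Real.log_div (by norm_num) he.ne', Real.log_one]
    ring
  have hccq : cc e ≤ 7 * q := by
    unfold cc
    have : 2 / e = 2 * q := by rw [hq]; ring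
    rw [this]
    linarith
  have hT2 : (2 : ℝ) ≤ 2 ^ q := by
    calc (2 : ℝ) = 2 ^ (1 : ℝ) := (Real.rpow_one 2).symm
      _ ≤ 2 ^ q := Real.rpow_le_rpow_of_exponent_le (by norm_num) hq1
  rw [← hDd] at hD
  -- the first number
  obtain ⟨n, hn1, hn2⟩ : ∃ n : ℕ, 2 * D ≤ (n : ℝ) ∧ (n : ℝ) ≤ 2 * D + 1 :=
    ⟨⌈2 * D⌉₊, Nat.le_ceil _, (Nat.ceil_lt_add_one (by linarith)).le⟩
  -- the number of layers in the blocks
  have ht1 : 0 < 2 * (cc e * cc e) := by positivity
  have hlog1 : Real.log (2 * (cc e * cc e)) ≤ 7 * L := by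
    have h1 : 2 * (cc e * cc e) ≤ 98 * (q * q) := by nlinarith
    have h2 : Real.log (2 * (cc e * cc e)) ≤ Real.log (98 * (q * q)) :=
      Real.log_le_log ht1 h1
    have h3 : Real.log (98 * (q * q)) = Real.log 98 + 2 * Real.log q := by
      rw [Real.log_mul (by norm_num) (by positivity), Real.log_mul (by positivity) (by positivity)]
      ring
    have h4 : Real.log 98 ≤ 7 * Real.log 2 := by
      calc Real.log 98 ≤ Real.log (2 ^ 7) := Real.log_le_log (by norm_num) (by norm_num)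
        _ = 7 * Real.log 2 := by rw [Real.log_pow]; norm_num
    rw [h3, hlogq] at h2
    linarith
  have hlog1' : 0 ≤ Real.log (2 * (cc e * cc e)) := by
    apply Real.log_nonneg
    have h1 : 5 ≤ cc e := by
      unfold cc
      have : (0 : ℝ) ≤ 2 / e := by positivity
      linarith
    nlinarith
  obtain ⟨j1, hj1, hj1'⟩ : ∃ j1 : ℕ, q * Real.log (2 * (cc e * cc e)) ≤ (j1 : ℝ) ∧
      (j1 : ℝ) ≤ q * Real.log (2 * (cc e * cc e)) + 1 :=
    ⟨⌈q * Real.log (2 * (cc e * cc e))⌉₊, Nat.le_ceil _,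
      (Nat.ceil_lt_add_one (mul_nonneg (by linarith) hlog1')).le⟩
  have hj1b : (j1 : ℝ) ≤ 9 * (q * L) := by
    have h1 : q * Real.log (2 * (cc e * cc e)) ≤ q * (7 * L) :=
      mul_le_mul_of_nonneg_left hlog1 (by linarith)
    nlinarith
  -- the number of layers in the first block
  have hk8 := kk_eight (le_refl (kk e C))
  have hk8' : (8 : ℝ) ≤ (kk e C : ℝ) := by exact_mod_cast hk8
  have hlogb : Real.logb 2 (kk e C) ≤ 9 * D * q := by
    have h1 : (kk e C : ℝ) ≤ 9 + D ^ 2 + 2 ^ q := by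
      have h2 : (kk e C : ℝ) < 8 + (C ^ (1 / e)) ^ 2 + 2 ^ (1 / e) + 1 := by
        apply Nat.ceil_lt_add_one
        positivity
      rw [← hDd, ← hq] at h2
      linarith
    have h2 : 9 + D ^ 2 + 2 ^ q ≤ 16 * D ^ 2 * 2 ^ q := by
      have h3 : 1 ≤ D ^ 2 := one_le_pow₀ hD
      nlinarith
    have h3 : Real.log (kk e C) ≤ Real.log (16 * D ^ 2 * 2 ^ q) :=
      Real.log_le_log (by linarith) (h1.trans h2)
    have h4 : Real.log (16 * D ^ 2 * 2 ^ q) = 4 * Real.log 2 + 2 * Real.log D + q * Real.log 2 := by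
      rw [Real.log_mul (by positivity) (by positivity), Real.log_mul (by norm_num) (by positivity),
        Real.log_rpow (by norm_num), Real.log_pow]
      have h5 : Real.log 16 = 4 * Real.log 2 := by
        rw [show (16 : ℝ) = 2 ^ 4 by norm_num, Real.log_pow]
        norm_num
      rw [h5]
      norm_num
    have h5 : Real.log D ≤ D - 1 := Real.log_le_sub_one_of_pos (by linarith)
    unfold Real.logb
    rw [div_le_iff₀ (by linarith)]
    rw [h4] at h3
    have h6 : D ≤ D * q := le_mul_of_one_le_right (by linarith) hq1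
    have h7 : q ≤ D * q := le_mul_of_one_le_left (by linarith) hD
    have h8 : (D - 1) ≤ 2 * Real.log 2 * (D * q) := by nlinarith
    have h9 : 4 * Real.log 2 ≤ 4 * (D * q) * Real.log 2 := by nlinarith
    have h10 : q * Real.log 2 ≤ (D * q) * Real.log 2 :=
      mul_le_mul_of_nonneg_right h7 (by linarith)
    have h11 : 2 * Real.log D ≤ 4 * (D * q) * Real.log 2 := by nlinarith
    calc Real.log (kk e C) ≤ 4 * Real.log 2 + 2 * Real.log D + q * Real.log 2 := h3
      _ ≤ 4 * (D * q) * Real.log 2 + 4 * (D * q) * Real.log 2 + (D * q) * Real.log 2 := by linarith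
      _ = 9 * D * q * Real.log 2 := by ring
  have hlogb1 : 1 ≤ Real.logb 2 (kk e C) := by
    rw [Real.le_logb_iff_rpow_le (by norm_num) (by linarith), Real.rpow_one]
    linarith
  have ht2 : 0 < Real.logb 2 (kk e C) * cc e := mul_pos (by linarith) hcc
  have hlog2' : q * Real.log (Real.logb 2 (kk e C) * cc e) ≤ D + 8 * (q * L) := by
    have h1 : Real.logb 2 (kk e C) * cc e ≤ 9 * D * q * (7 * q) :=
      mul_le_mul hlogb hccq hcc.le (by positivity)
    have h2 : Real.log (Real.logb 2 (kk e C) * cc e) ≤ Real.log (9 * D * q * (7 * q)) :=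
      Real.log_le_log ht2 h1
    have h3 : Real.log (9 * D * q * (7 * q)) = Real.log 63 + Real.log D + 2 * Real.log q := by
      have h4 : 9 * D * q * (7 * q) = 63 * (D * (q * q)) := by ring
      rw [h4, Real.log_mul (by norm_num) (by positivity), Real.log_mul (by positivity) (by positivity),
        Real.log_mul (by positivity) (by positivity)]
      ring
    have h4 : Real.log 63 ≤ 6 * Real.log 2 := by
      calc Real.log 63 ≤ Real.log (2 ^ 6) := Real.log_le_log (by norm_num) (by norm_num)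
        _ = 6 * Real.log 2 := by rw [Real.log_pow]; norm_num
    have h5 : Real.log D ≤ D / q - 1 + Real.log q := by
      have h6 : Real.log (D / q) ≤ D / q - 1 := Real.log_le_sub_one_of_pos (by positivity)
      rw [Real.log_div (by positivity) (by positivity)] at h6
      linarith
    have h6 : Real.log (Real.logb 2 (kk e C) * cc e) ≤ D / q + 7 * L := by
      rw [h3] at h2
      rw [hlogq] at h2 h5
      linarith
    have h7 : q * Real.log (Real.logb 2 (kk e C) * cc e) ≤ q * (D / q + 7 * L) :=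
      mul_le_mul_of_nonneg_left h6 (by linarith)
    have h8 : q * (D / q + 7 * L) = D + 7 * (q * L) := by
      field_simp
    rw [h8] at h7
    linarith
  have hlog2'' : 0 ≤ Real.log (Real.logb 2 (kk e C) * cc e) := by
    apply Real.log_nonneg
    have h1 : 5 ≤ cc e := by
      unfold cc
      have : (0 : ℝ) ≤ 2 / e := by positivity
      linarith
    nlinarith
  obtain ⟨j2, hj2, hj2'⟩ : ∃ j2 : ℕ, q * Real.log (Real.logb 2 (kk e C) * cc e) ≤ (j2 : ℝ) ∧
      (j2 : ℝ) ≤ q * Real.log (Real.logb 2 (kk e C) * cc e) + 1 :=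
    ⟨⌈q * Real.log (Real.logb 2 (kk e C) * cc e)⌉₊, Nat.le_ceil _,
      (Nat.ceil_lt_add_one (mul_nonneg (by linarith) hlog2'')).le⟩
  refine ⟨n, j1, j2, ?_, ?_, ?_, ?_⟩
  · rw [← hDd]; exact hn1
  · rw [hq] at hj1
    have h1 := pow_bound he he1 ht1 hj1
    have h2 : 0 ≤ cc e * cc e := by positivity
    calc cc e * cc e * (1 - e) ^ j1 ≤ cc e * cc e * (1 / (2 * (cc e * cc e))) :=
          mul_le_mul_of_nonneg_left h1 h2
      _ = 1 / 2 := by field_simp
  · rw [hq] at hj2
    have h1 := pow_bound he he1 ht2 hj2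
    calc Real.logb 2 (kk e C) * cc e * (1 - e) ^ j2
        ≤ Real.logb 2 (kk e C) * cc e * (1 / (Real.logb 2 (kk e C) * cc e)) :=
          mul_le_mul_of_nonneg_left h1 ht2.le
      _ = 1 := mul_one_div_cancel ht2.ne'
  · rw [← hDd, ← hL, ← hq]
    push_cast
    have h1 : 0 ≤ q * L := by linarith
    nlinarith

end NI12
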