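import Pool.Agent.NI12.Family

/-!
# Random colourings of independent layers
-/

set_option autoImplicit false

namespace NI12

open Finset

variable {G : Type} [AddCommGroup G]

/-- Weighted count of the relations in `Y ∪ W`, with `W` independent. -/
lemma weight {b : ℕ → G} {Y W : Finset ℕ} (hYW : Disjoint Y W) (hW : Ind b W)
    {D : Finset (Finset ℕ)} (hD : ∀ R, R ∈ D → R ⊆ Y ∪ W ∧ Dep b R) :
    ∑ R ∈ D, 2 ^ ((Y ∪ W) \ R).card ≤ 2 ^ (Y ∪ W).card * 2 ^ Y.card := by
  classical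
  have h1 : ∀ R, R ∈ D → ∃ P : Finset ℕ, P ⊆ R ∧ ∑ i ∈ P, b i = ∑ i ∈ R \ P, b i :=
    fun R hR => dep_split (hD R hR).2
  choose! P hP hPs using h1
  have e1 : ∑ R ∈ D, 2 ^ ((Y ∪ W) \ R).card
      = (D.sigma (fun R => ((Y ∪ W) \ R).powerset)).card := by
    rw [Finset.card_sigma]
    apply Finset.sum_congr rfl
    intro R _
    rw [Finset.card_powerset]
  have e2 : 2 ^ (Y ∪ W).card * 2 ^ Y.card = ((Y ∪ W).powerset ×ˢ Y.powerset).card := by
    rw [Finset.card_product, Finset.card_powerset, Finset.card_powerset]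
  rw [e1, e2]
  rw [ind_iff] at hW
  apply Finset.card_le_card_of_injOn
    (fun z : (Σ _ : Finset ℕ, Finset ℕ) => (P z.1 ∪ z.2, ((z.1 \ P z.1) ∪ z.2) ∩ Y))
  · rintro ⟨R, F⟩ hz
    obtain ⟨hR, hF⟩ := Finset.mem_sigma.mp (Finset.mem_coe.mp hz)
    have hR' : R ∈ D := hR
    have hF' : F ⊆ (Y ∪ W) \ R := Finset.mem_powerset.mp hF
    apply Finset.mem_coe.mpr
    apply Finset.mem_product.mpr
    constructor
    · apply Finset.mem_powerset.mpr
      apply Finset.union_subset
      · exact (hP R hR').trans (hD R hR').1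
      · exact hF'.trans Finset.sdiff_subset
    · exact Finset.mem_powerset.mpr Finset.inter_subset_right
  · rintro ⟨R, F⟩ hz ⟨R', F'⟩ hz' heq
    obtain ⟨hR, hF⟩ := Finset.mem_sigma.mp (Finset.mem_coe.mp hz)
    obtain ⟨hR2, hF2⟩ := Finset.mem_sigma.mp (Finset.mem_coe.mp hz')
    have hR1 : R ∈ D := hR
    have hR3 : R' ∈ D := hR2
    have hF1 : F ⊆ (Y ∪ W) \ R := Finset.mem_powerset.mp hF
    have hF3 : F' ⊆ (Y ∪ W) \ R' := Finset.mem_powerset.mp hF2
    have q1 : P R ∪ F = P R' ∪ F' := congrArg Prod.fst heq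
    have q2 : ((R \ P R) ∪ F) ∩ Y = ((R' \ P R') ∪ F') ∩ Y := congrArg Prod.snd heq
    have dis1 : ∀ (S F0 : Finset ℕ), F0 ⊆ (Y ∪ W) \ S → Disjoint S F0 := by
      intro S F0 h0
      rw [Finset.disjoint_left]
      intro x hx hxF
      exact (Finset.mem_sdiff.mp (h0 hxF)).2 hx
    have sumB : ∀ (S F0 : Finset ℕ), S ∈ D → F0 ⊆ (Y ∪ W) \ S →
        ∑ i ∈ (S \ P S) ∪ F0, b i = ∑ i ∈ P S ∪ F0, b i := by
      intro S F0 hS h0
      have d := dis1 S F0 h0
      rw [Finset.sum_union (d.mono_left Finset.sdiff_subset),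
        Finset.sum_union (d.mono_left (hP S hS)), hPs S hS]
    have subB : ∀ (S F0 : Finset ℕ), S ∈ D → F0 ⊆ (Y ∪ W) \ S → (S \ P S) ∪ F0 ⊆ Y ∪ W := by
      intro S F0 hS h0
      exact Finset.union_subset (Finset.sdiff_subset.trans (hD S hS).1)
        (h0.trans Finset.sdiff_subset)
    have hBB : ∑ i ∈ (R \ P R) ∪ F, b i = ∑ i ∈ (R' \ P R') ∪ F', b i := by
      rw [sumB R F hR1 hF1, sumB R' F' hR3 hF3, q1]
    have splitB : ∀ B : Finset ℕ, B ⊆ Y ∪ W →
        ∑ i ∈ B, b i = ∑ i ∈ B ∩ Y, b i + ∑ i ∈ B ∩ W, b i := by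
      intro B hB
      rw [← Finset.sum_union]
      · congr 1
        rw [← Finset.inter_union_distrib_left]
        exact (Finset.inter_eq_left.mpr hB).symm
      · exact (hYW.mono Finset.inter_subset_right Finset.inter_subset_right)
    have hBW : ((R \ P R) ∪ F) ∩ W = ((R' \ P R') ∪ F') ∩ W := by
      apply hW _ Finset.inter_subset_right _ Finset.inter_subset_right
      have h3 := splitB _ (subB R F hR1 hF1)
      have h4 := splitB _ (subB R' F' hR3 hF3)
      rw [h3, h4, q2] at hBB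
      exact add_left_cancel hBB
    have q3 : (R \ P R) ∪ F = (R' \ P R') ∪ F' := by
      have h3 : ∀ B : Finset ℕ, B ⊆ Y ∪ W → B = (B ∩ Y) ∪ (B ∩ W) := by
        intro B hB
        rw [← Finset.inter_union_distrib_left]
        exact (Finset.inter_eq_left.mpr hB).symm
      rw [h3 _ (subB R F hR1 hF1), h3 _ (subB R' F' hR3 hF3), q2, hBW]
    have recF : ∀ (S F0 : Finset ℕ), S ∈ D → F0 ⊆ (Y ∪ W) \ S →
        F0 = (P S ∪ F0) ∩ ((S \ P S) ∪ F0) := by
      intro S F0 hS h0
      ext x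
      simp only [Finset.mem_inter, Finset.mem_union, Finset.mem_sdiff]
      constructor
      · intro hx; exact ⟨Or.inr hx, Or.inr hx⟩
      · rintro ⟨h5 | h5, h6 | h6⟩
        · exact absurd h5 h6.2
        · exact h6
        · exact h5
        · exact h5
    have recR : ∀ (S F0 : Finset ℕ), S ∈ D → F0 ⊆ (Y ∪ W) \ S →
        S = ((P S ∪ F0) ∪ ((S \ P S) ∪ F0)) \ F0 := by
      intro S F0 hS h0
      ext x
      simp only [Finset.mem_union, Finset.mem_sdiff]
      constructor
      · intro hx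
        have h5 : x ∉ F0 := fun h6 => (Finset.disjoint_left.mp (dis1 S F0 h0)) hx h6
        by_cases h7 : x ∈ P S
        · exact ⟨Or.inl (Or.inl h7), h5⟩
        · exact ⟨Or.inr (Or.inl ⟨hx, h7⟩), h5⟩
      · rintro ⟨(h5 | h5) | (h5 | h5), h6⟩
        · exact hP S hS h5
        · exact absurd h5 h6
        · exact h5.1
        · exact absurd h5 h6
    have qF : F = F' := by
      rw [recF R F hR1 hF1, recF R' F' hR3 hF3, q1, q3]
    have qR : R = R' := by
      rw [recR R F hR1 hF1, recR R' F' hR3 hF3, q1, q3, qF]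
    rw [qR, qF]

lemma arith_four {w z r q M : ℕ} (hM : M < r) (hw : q + r = w) (hz : q ≤ z) :
    2 ^ (M + 1) * 4 ^ q ≤ 2 ^ w * 2 ^ z := by
  have h4 : (4:ℕ) ^ q = 2 ^ (2 * q) := by
    rw [pow_mul]; norm_num
  rw [h4, ← pow_add, ← pow_add]
  exact Nat.pow_le_pow_right (by norm_num) (by omega)

/-- A random colouring of an independent layer with four colours. -/
lemma four {b : ℕ → G} {Y W : Finset ℕ} (hYW : Disjoint Y W) (hW : Ind b W) {M : ℕ}
    (hM : 2 * Y.card + 2 ≤ M)
    (hR : ∀ R : Finset ℕ, R ⊆ Y ∪ W → Dep b R → (R ∩ W).Nonempty → M < (R ∩ W).card) :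
    ∃ χ : ℕ → ℕ, (∀ x, χ x < 4) ∧
      ∀ R : Finset ℕ, R ⊆ Y ∪ W → Dep b R → (R ∩ W).Nonempty → ∀ i, ¬ ∀ x, x ∈ R ∩ W → χ x = i := by
  classical
  obtain ⟨D, hDdef⟩ : ∃ D : Finset (Finset ℕ),
      D = (Y ∪ W).powerset.filter (fun R => Dep b R ∧ (R ∩ W).Nonempty) := ⟨_, rfl⟩
  have hD : ∀ R, R ∈ D ↔ R ⊆ Y ∪ W ∧ Dep b R ∧ (R ∩ W).Nonempty := by
    intro R
    rw [hDdef, Finset.mem_filter, Finset.mem_powerset]
  have hwt := weight hYW hW (D := D) (fun R hR' => ⟨((hD R).mp hR').1, ((hD R).mp hR').2.1⟩)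
  let bad : Finset ℕ → Fin 4 → Finset (↥W → Fin 4) := fun R i =>
    Fintype.piFinset (fun x : ↥W => if (x : ℕ) ∈ R then {i} else Finset.univ)
  have hbadc : ∀ R i, (bad R i).card = 4 ^ (W \ R).card := by
    intro R i
    have h1 : ∀ x : ↥W, (if (x : ℕ) ∈ R then ({i} : Finset (Fin 4)) else Finset.univ).card
        = if (x : ℕ) ∈ R then 1 else 4 := by
      intro x
      by_cases hx : (x : ℕ) ∈ R
      · rw [if_pos hx, if_pos hx, Finset.card_singleton]
      · rw [if_neg hx, if_neg hx]; simp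
    show (Fintype.piFinset (fun x : ↥W => if (x : ℕ) ∈ R then {i} else Finset.univ)).card = _
    rw [Fintype.card_piFinset, Finset.prod_congr rfl (fun x _ => h1 x)]
    rw [Finset.prod_coe_sort W (fun x => if x ∈ R then 1 else 4)]
    rw [Finset.prod_ite]
    rw [Finset.prod_const_one, one_mul, Finset.prod_const]
    congr 2
    ext x
    simp only [Finset.mem_filter, Finset.mem_sdiff]
  let Bad : Finset (↥W → Fin 4) := D.biUnion (fun R => (Finset.univ : Finset (Fin 4)).biUnion (bad R))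
  have hBad : Bad.card ≤ ∑ R ∈ D, 4 * 4 ^ (W \ R).card := by
    refine Finset.card_biUnion_le.trans (Finset.sum_le_sum (fun R _ => ?_))
    refine Finset.card_biUnion_le.trans ?_
    rw [Finset.sum_congr rfl (fun i _ => hbadc R i)]
    simp
  have hmul : 2 ^ (M + 1) * ∑ R ∈ D, 4 * 4 ^ (W \ R).card
      ≤ 4 * (2 ^ W.card * (2 ^ (Y ∪ W).card * 2 ^ Y.card)) := by
    calc 2 ^ (M + 1) * ∑ R ∈ D, 4 * 4 ^ (W \ R).card
        = ∑ R ∈ D, 4 * (2 ^ (M + 1) * 4 ^ (W \ R).card) := by
          rw [Finset.mul_sum]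
          apply Finset.sum_congr rfl
          intro R _
          ring
      _ ≤ ∑ R ∈ D, 4 * (2 ^ W.card * 2 ^ ((Y ∪ W) \ R).card) := by
          apply Finset.sum_le_sum
          intro R hR'
          obtain ⟨h1, h2, h3⟩ := (hD R).mp hR'
          apply Nat.mul_le_mul_left
          have h4 : (W \ R).card + (R ∩ W).card = W.card := by
            rw [Finset.inter_comm]
            exact Finset.card_sdiff_add_card_inter W R
          have h5 : (W \ R).card ≤ ((Y ∪ W) \ R).card :=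
            Finset.card_le_card (Finset.sdiff_subset_sdiff Finset.subset_union_right
              (Finset.Subset.refl _))
          exact arith_four (hR R h1 h2 h3) h4 h5
      _ = 4 * (2 ^ W.card * ∑ R ∈ D, 2 ^ ((Y ∪ W) \ R).card) := by
          rw [← Finset.mul_sum, ← Finset.mul_sum]
      _ ≤ 4 * (2 ^ W.card * (2 ^ (Y ∪ W).card * 2 ^ Y.card)) :=
          Nat.mul_le_mul_left _ (Nat.mul_le_mul_left _ hwt)
  have hYWc : (Y ∪ W).card = Y.card + W.card := Finset.card_union_of_disjoint hYW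
  have hlt : Bad.card < (Finset.univ : Finset (↥W → Fin 4)).card := by
    have h1 : (Finset.univ : Finset (↥W → Fin 4)).card = 4 ^ W.card := by
      rw [Finset.card_univ, Fintype.card_fun, Fintype.card_coe, Fintype.card_fin]
    rw [h1]
    have h2 : 4 * (2 ^ W.card * (2 ^ (Y ∪ W).card * 2 ^ Y.card)) ≤ 2 ^ M * 4 ^ W.card := by
      rw [hYWc]
      have h3 : (4:ℕ) ^ W.card = 2 ^ (2 * W.card) := by rw [pow_mul]; norm_num
      have h4 : 4 * (2 ^ W.card * (2 ^ (Y.card + W.card) * 2 ^ Y.card))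
          = 2 ^ (2 + (W.card + ((Y.card + W.card) + Y.card))) := by
        rw [pow_add 2 2, pow_add 2 W.card ((Y.card + W.card) + Y.card),
          pow_add 2 (Y.card + W.card) Y.card]
        norm_num
      rw [h4, h3, ← pow_add]
      exact Nat.pow_le_pow_right (by norm_num) (by omega)
    have h5 : 2 ^ (M + 1) * Bad.card ≤ 2 ^ M * 4 ^ W.card :=
      (Nat.mul_le_mul_left _ hBad).trans (hmul.trans h2)
    have h6 : 2 ^ (M + 1) * Bad.card = 2 ^ M * (2 * Bad.card) := by ring
    rw [h6] at h5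
    have h7 : 2 * Bad.card ≤ 4 ^ W.card := Nat.le_of_mul_le_mul_left h5 (by positivity)
    have h8 : 0 < 4 ^ W.card := by positivity
    omega
  obtain ⟨f, -, hf⟩ := Finset.exists_mem_notMem_of_card_lt_card hlt
  refine ⟨fun x => if h : x ∈ W then (f ⟨x, h⟩ : ℕ) else 0, ?_, ?_⟩
  · intro x
    by_cases h : x ∈ W
    · simp only [dif_pos h]; exact (f ⟨x, h⟩).2
    · simp only [dif_neg h]; norm_num
  · intro R hRs hRd hRn i hi
    obtain ⟨x0, hx0⟩ := hRn
    have hx0W := (Finset.mem_inter.mp hx0).2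
    apply hf
    refine Finset.mem_biUnion.mpr ⟨R, (hD R).mpr ⟨hRs, hRd, ⟨x0, hx0⟩⟩, ?_⟩
    refine Finset.mem_biUnion.mpr ⟨f ⟨x0, hx0W⟩, Finset.mem_univ _, ?_⟩
    apply Fintype.mem_piFinset.mpr
    rintro ⟨x, hx⟩
    show f ⟨x, hx⟩ ∈ (if x ∈ R then ({f ⟨x0, hx0W⟩} : Finset (Fin 4)) else Finset.univ)
    by_cases hxR : x ∈ R
    · rw [if_pos hxR, Finset.mem_singleton]
      have h1 := hi x (Finset.mem_inter.mpr ⟨hxR, hx⟩)
      have h2 := hi x0 hx0
      simp only [dif_pos hx] at h1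
      simp only [dif_pos hx0W] at h2
      exact Fin.ext (h1.trans h2.symm)
    · rw [if_neg hxR]; exact Finset.mem_univ _

/-- One layer reduces the exponent. -/
lemma arith_layer {e C y t : ℝ} (he : 0 < e) (he1 : e ≤ 1) (hC : 1 ≤ C) (hy : 1 ≤ y) {u d : ℕ}
    (h1 : (d : ℝ) ≤ C * (u : ℝ) ^ (1 - e)) (h2 : (u : ℝ) ≤ C ^ (1 / e) * y ^ t) :
    (d : ℝ) ≤ C ^ (1 / e) * y ^ (t * (1 - e)) := by
  have h1e : 0 ≤ 1 - e := by linarith
  have hC0 : (0 : ℝ) < C := by linarith
  have hy0 : (0 : ℝ) < y := by linarith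
  have h3 : (u : ℝ) ^ (1 - e) ≤ (C ^ (1 / e) * y ^ t) ^ (1 - e) :=
    Real.rpow_le_rpow (Nat.cast_nonneg _) h2 h1e
  have h4 : C * (C ^ (1 / e) * y ^ t) ^ (1 - e) = C ^ (1 / e) * y ^ (t * (1 - e)) := by
    rw [Real.mul_rpow (Real.rpow_nonneg hC0.le _) (Real.rpow_nonneg hy0.le _),
      ← Real.rpow_mul hC0.le, ← Real.rpow_mul hy0.le, ← mul_assoc]
    congr 1
    calc C * C ^ (1 / e * (1 - e)) = C ^ (1 : ℝ) * C ^ (1 / e * (1 - e)) := by rw [Real.rpow_one]
      _ = C ^ (1 + 1 / e * (1 - e)) := by rw [Real.rpow_add hC0]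
      _ = C ^ (1 / e) := by
          congr 1
          field_simp
          ring
  calc (d : ℝ) ≤ C * (u : ℝ) ^ (1 - e) := h1
    _ ≤ C * (C ^ (1 / e) * y ^ t) ^ (1 - e) := mul_le_mul_of_nonneg_left h3 hC0.le
    _ = _ := h4

/-- Colouring of a block with a bounded number of colours. -/
lemma rcl {b : ℕ → G} {e C : ℝ} (he : 0 < e) (he1 : e ≤ 1) (hC : 1 ≤ C) (h : Hyp b e C)
    {s : ℕ} (hs : 1 ≤ s) (hsC : C ^ (1 / e) * (s : ℝ) ^ (1 / 2 : ℝ) ≤ (s : ℝ)) {Y : Finset ℕ}
    (hY : Y.card ≤ s) : ∀ (j : ℕ) (t : ℝ) (U : Finset ℕ), Disjoint Y U →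
    t * (1 - e) ^ j ≤ 1 / 2 → (U.card : ℝ) ≤ C ^ (1 / e) * (s : ℝ) ^ t →
    (∀ R : Finset ℕ, R ⊆ Y ∪ U → Dep b R → (R ∩ U).Nonempty → 2 * s + 2 < (R ∩ U).card) →
    ∃ χ : ℕ → ℕ, (∀ x, χ x < 4 * j + 1) ∧
      ∀ R : Finset ℕ, R ⊆ Y ∪ U → Dep b R → (R ∩ U).Nonempty →
        ∀ i, ¬ ∀ x, x ∈ R ∩ U → χ x = i := by
  classical
  have hs' : (1 : ℝ) ≤ (s : ℝ) := by exact_mod_cast hs
  intro j
  induction j with
  | zero =>
    intro t U _ ht hU hR
    have hU2 : (U.card : ℝ) ≤ (s : ℝ) := by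
      rw [pow_zero, mul_one] at ht
      refine hU.trans (le_trans ?_ hsC)
      apply mul_le_mul_of_nonneg_left _ (Real.rpow_nonneg (by linarith) _)
      exact Real.rpow_le_rpow_of_exponent_le hs' ht
    have hU3 : U.card ≤ s := by exact_mod_cast hU2
    refine ⟨fun _ => 0, fun _ => Nat.succ_pos _, ?_⟩
    intro R h1 h2 h3 i _
    have h4 := hR R h1 h2 h3
    have h5 : (R ∩ U).card ≤ U.card := Finset.card_le_card Finset.inter_subset_right
    omega
  | succ j ih =>
    intro t U hYU ht hU hR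
    obtain ⟨A, hAU, hA, hd⟩ := h U
    have hd2 := arith_layer he he1 hC hs' hd hU
    have ht2 : t * (1 - e) * (1 - e) ^ j ≤ 1 / 2 := by
      rw [pow_succ] at ht
      calc t * (1 - e) * (1 - e) ^ j = t * ((1 - e) ^ j * (1 - e)) := by ring
        _ ≤ 1 / 2 := ht
    -- the rest
    have hsub : U \ A ⊆ U := Finset.sdiff_subset
    have key : ∀ R : Finset ℕ, R ⊆ Y ∪ (U \ A) → R ∩ U = R ∩ (U \ A) := by
      intro R hR'
      ext x
      simp only [Finset.mem_inter]
      constructor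
      · rintro ⟨h1, h2⟩
        refine ⟨h1, ?_⟩
        rcases Finset.mem_union.mp (hR' h1) with h3 | h3
        · exact absurd h2 (Finset.disjoint_left.mp hYU h3)
        · exact h3
      · rintro ⟨h1, h2⟩
        exact ⟨h1, hsub h2⟩
    obtain ⟨χ1, hχ1, hχ1'⟩ := ih (t * (1 - e)) (U \ A) (hYU.mono_right hsub) ht2 hd2 (by
      intro R h1 h2 h3
      rw [← key R h1] at h3 ⊢
      exact hR R (h1.trans (Finset.union_subset_union (Finset.Subset.refl _) hsub)) h2 h3)
    -- the layer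
    have key2 : ∀ R : Finset ℕ, R ⊆ Y ∪ A → R ∩ U = R ∩ A := by
      intro R hR'
      ext x
      simp only [Finset.mem_inter]
      constructor
      · rintro ⟨h1, h2⟩
        refine ⟨h1, ?_⟩
        rcases Finset.mem_union.mp (hR' h1) with h3 | h3
        · exact absurd h2 (Finset.disjoint_left.mp hYU h3)
        · exact h3
      · rintro ⟨h1, h2⟩
        exact ⟨h1, hAU h2⟩
    obtain ⟨χ2, hχ2, hχ2'⟩ := four (b := b) (Y := Y) (W := A) (hYU.mono_right hAU) hA
      (M := 2 * s + 2) (by omega) (by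
        intro R h1 h2 h3
        rw [← key2 R h1] at h3 ⊢
        exact hR R (h1.trans (Finset.union_subset_union (Finset.Subset.refl _) hAU)) h2 h3)
    refine ⟨fun x => if x ∈ A then (4 * j + 1) + χ2 x else χ1 x, ?_, ?_⟩
    · intro x
      have h1 := hχ1 x
      have h2 := hχ2 x
      by_cases hx : x ∈ A
      · simp only [if_pos hx]; omega
      · simp only [if_neg hx]; omega
    · intro R h1 h2 h3 i hi
      by_cases hi4 : i < 4 * j + 1
      · -- no element in A
        have h4 : ∀ x, x ∈ R → x ∉ A := by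
          intro x hx hxA
          have h5 := hi x (Finset.mem_inter.mpr ⟨hx, hAU hxA⟩)
          simp only [if_pos hxA] at h5
          omega
        have h5 : R ⊆ Y ∪ (U \ A) := by
          intro x hx
          rcases Finset.mem_union.mp (h1 hx) with h6 | h6
          · exact Finset.mem_union_left _ h6
          · exact Finset.mem_union_right _ (Finset.mem_sdiff.mpr ⟨h6, h4 x hx⟩)
        have h6 := key R h5
        apply hχ1' R h5 h2 (by rw [← h6]; exact h3) i
        intro x hx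
        rw [← h6] at hx
        have h7 := hi x hx
        simp only [if_neg (h4 x (Finset.mem_inter.mp hx).1)] at h7
        exact h7
      · have h4 : ∀ x, x ∈ R ∩ U → x ∈ A := by
          intro x hx
          by_contra hxA
          have h5 := hi x hx
          simp only [if_neg hxA] at h5
          have h6 := hχ1 x
          omega
        have h5 : R ⊆ Y ∪ A := by
          intro x hx
          rcases Finset.mem_union.mp (h1 hx) with h6 | h6
          · exact Finset.mem_union_left _ h6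
          · exact Finset.mem_union_right _ (h4 x (Finset.mem_inter.mpr ⟨hx, h6⟩))
        have h6 := key2 R h5
        apply hχ2' R h5 h2 (by rw [← h6]; exact h3) (i - (4 * j + 1))
        intro x hx
        have h8 := (Finset.mem_inter.mp hx).2
        rw [← h6] at hx
        have h7 := hi x hx
        simp only [if_pos h8] at h7
        omega

/-- Greedy colouring of a finite set by independent layers. -/
lemma greedy {b : ℕ → G} (hb : ∀ i, b i ≠ 0) {e C : ℝ} (he : 0 < e) (he1 : e ≤ 1) (hC : 1 ≤ C)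
    (h : Hyp b e C) {n : ℕ} (hn : 2 * C ^ (1 / e) ≤ (n : ℝ)) :
    ∀ (j : ℕ) (t : ℝ) (U : Finset ℕ), t * (1 - e) ^ j ≤ 1 →
      (U.card : ℝ) ≤ C ^ (1 / e) * 2 ^ t →
      ∃ χ : ℕ → ℕ, (∀ x, χ x < n + j) ∧
        ∀ R : Finset ℕ, R ⊆ U → Dep b R → ∀ i, ¬ ∀ x, x ∈ R → χ x = i := by
  classical
  intro j
  induction j with
  | zero =>
    intro t U ht hU
    have hU2 : U.card ≤ n := by
      rw [pow_zero, mul_one] at ht
      have h1 : (U.card : ℝ) ≤ (n : ℝ) := by
        refine hU.trans (le_trans ?_ hn)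
        rw [mul_comm 2]
        apply mul_le_mul_of_nonneg_left _ (Real.rpow_nonneg (by linarith) _)
        calc (2 : ℝ) ^ t ≤ 2 ^ (1 : ℝ) := Real.rpow_le_rpow_of_exponent_le (by norm_num) ht
          _ = 2 := Real.rpow_one _
      exact_mod_cast h1
    have hn0 : 0 < n := by
      have h1 : (0 : ℝ) < C ^ (1 / e) := Real.rpow_pos_of_pos (by linarith) _
      have h2 : (0 : ℝ) < (n : ℝ) := by linarith
      exact_mod_cast h2
    let f : ℕ → ℕ := fun x => if hx : x ∈ U then (U.equivFin ⟨x, hx⟩ : ℕ) else 0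
    refine ⟨f, ?_, ?_⟩
    · intro x
      by_cases hx : x ∈ U
      · have h1 : f x = (U.equivFin ⟨x, hx⟩ : ℕ) := dif_pos hx
        have h2 := (U.equivFin ⟨x, hx⟩).2
        omega
      · have h1 : f x = 0 := dif_neg hx
        omega
    · intro R hR hD i hi
      obtain ⟨x0, hx0⟩ := hD.1
      have h2 : ∀ x, x ∈ R → x = x0 := by
        intro x hx
        have h3 : f x = f x0 := by rw [hi x hx, hi x0 hx0]
        have h4 : f x = (U.equivFin ⟨x, hR hx⟩ : ℕ) := dif_pos (hR hx)
        have h5 : f x0 = (U.equivFin ⟨x0, hR hx0⟩ : ℕ) := dif_pos (hR hx0)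
        rw [h4, h5] at h3
        have h6 := U.equivFin.injective (Fin.ext h3)
        exact congrArg Subtype.val h6
      have h3 : R = {x0} := by
        ext x
        rw [Finset.mem_singleton]
        constructor
        · exact h2 x
        · intro hx; rw [hx]; exact hx0
      rw [h3] at hD
      exact hb x0 (dep_singleton hD)
  | succ j ih =>
    intro t U ht hU
    obtain ⟨A, hAU, hA, hd⟩ := h U
    have hd2 := arith_layer he he1 hC (by norm_num) hd hU
    have ht2 : t * (1 - e) * (1 - e) ^ j ≤ 1 := by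
      rw [pow_succ] at ht
      calc t * (1 - e) * (1 - e) ^ j = t * ((1 - e) ^ j * (1 - e)) := by ring
        _ ≤ 1 := ht
    obtain ⟨χ, hχ, hχ'⟩ := ih (t * (1 - e)) (U \ A) ht2 hd2
    refine ⟨fun x => if x ∈ A then n + j else χ x, ?_, ?_⟩
    · intro x
      have h1 := hχ x
      by_cases hx : x ∈ A
      · simp only [if_pos hx]; omega
      · simp only [if_neg hx]; omega
    · intro R hR hD i hi
      by_cases hin : i = n + j
      · apply hA R _ hD
        intro x hx
        by_contra hxA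
        have h1 := hi x hx
        simp only [if_neg hxA] at h1
        have h2 := hχ x
        omega
      · have h1 : ∀ x, x ∈ R → x ∉ A := by
          intro x hx hxA
          have h2 := hi x hx
          simp only [if_pos hxA] at h2
          omega
        apply hχ' R _ hD i
        · intro x hx
          have h2 := hi x hx
          simp only [if_neg (h1 x hx)] at h2
          exact h2
        · intro x hx
          exact Finset.mem_sdiff.mpr ⟨hR hx, h1 x hx⟩

end NI12
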