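import Pool.Agent.NI12.Basic

/-!
# Disjoint families of short relations over a finite set are small
-/

set_option autoImplicit false

namespace NI12

open Finset

variable {G : Type} [AddCommGroup G]

lemma two_sq_lt (k : ℕ) (hk : 8 ≤ k) : 2 * k ^ 2 + 1 < 2 ^ k := by
  induction k, hk using Nat.le_induction with
  | base => norm_num
  | succ n hn ih =>
    have h1 : 2 * (n + 1) ^ 2 + 1 ≤ 2 * (2 * n ^ 2 + 1) := by nlinarith
    calc 2 * (n + 1) ^ 2 + 1 ≤ 2 * (2 * n ^ 2 + 1) := h1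
      _ < 2 * 2 ^ n := by omega
      _ = 2 ^ (n + 1) := by ring

/-- Many disjoint relations over `E` combine to a relation outside `E`. -/
lemma no_big {b : ℕ → G} {E : Finset ℕ} {k : ℕ} (hE : E.card ≤ k) (hk : 8 ≤ k)
    {A : Finset ℕ} (hA : Ind b A) {J : Finset (Finset ℕ)}
    (hJ : ∀ S, S ∈ J → S.Nonempty ∧ S ⊆ A ∧ ∃ R : Finset ℕ, Dep b R ∧ R \ E = S)
    (hd : ∀ S, S ∈ J → ∀ S', S' ∈ J → S ≠ S' → Disjoint S S') : J.card < k ^ 2 := by
  classical
  by_contra hcon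
  push Not at hcon
  obtain ⟨J', hJ', hcard⟩ := Finset.exists_subset_card_eq hcon
  have hJ2 : ∀ S, S ∈ J' → ∃ (R : Finset ℕ) (c : ℕ → ℤ), R \ E = S ∧
      (∀ x, x ∈ R → c x = 1 ∨ c x = -1) ∧ (∀ x, x ∉ R → c x = 0) ∧ ∑ x ∈ R, c x • b x = 0 := by
    intro S hS
    obtain ⟨-, -, R, hR, hRE⟩ := hJ S (hJ' hS)
    obtain ⟨-, c, h1, h2, h3⟩ := hR
    exact ⟨R, c, hRE, h1, h2, h3⟩
  choose! R cf hRE hc1 hc0 hcs using hJ2
  have hne : ∀ S, S ∈ J' → S.Nonempty := fun S hS => (hJ S (hJ' hS)).1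
  have hSA : ∀ S, S ∈ J' → S ⊆ A := fun S hS => (hJ S (hJ' hS)).2.1
  have hb : ∀ S, S ∈ J' → ∀ x, |cf S x| ≤ 1 := by
    intro S hS x
    by_cases hx : x ∈ R S
    · rcases hc1 S hS x hx with h | h <;> rw [h] <;> simp
    · rw [hc0 S hS x hx]; simp
  -- the coefficient vectors on `E`
  let v : Finset (Finset ℕ) → (↥E → ℤ) := fun X e => ∑ S ∈ X, cf S (e : ℕ)
  let T : Finset (↥E → ℤ) := Fintype.piFinset (fun _ => Finset.Icc (-((k:ℤ) ^ 2)) ((k:ℤ) ^ 2))
  have hv : ∀ X ∈ J'.powerset, v X ∈ T := by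
    intro X hX
    rw [Finset.mem_powerset] at hX
    rw [Fintype.mem_piFinset]
    intro e
    rw [Finset.mem_Icc, ← abs_le]
    calc |∑ S ∈ X, cf S (e : ℕ)| ≤ ∑ S ∈ X, |cf S (e : ℕ)| := Finset.abs_sum_le_sum_abs _ _
      _ ≤ ∑ S ∈ X, (1 : ℤ) := Finset.sum_le_sum (fun S hS => hb S (hX hS) _)
      _ = (X.card : ℤ) := by simp
      _ ≤ (J'.card : ℤ) := by exact_mod_cast Finset.card_le_card hX
      _ = (k:ℤ) ^ 2 := by rw [hcard]; push_cast; ring
  have hTcard : T.card < J'.powerset.card := by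
    have h1 : T.card = (2 * k ^ 2 + 1) ^ E.card := by
      simp only [T, Fintype.card_piFinset, Int.card_Icc, Finset.prod_const, Finset.card_univ,
        Fintype.card_coe]
      congr 1
      have : ((k:ℤ) ^ 2 + 1 - -((k:ℤ) ^ 2)) = ((2 * k ^ 2 + 1 : ℕ) : ℤ) := by push_cast; ring
      rw [this, Int.toNat_natCast]
    rw [h1, Finset.card_powerset, hcard]
    calc (2 * k ^ 2 + 1) ^ E.card ≤ (2 * k ^ 2 + 1) ^ k := Nat.pow_le_pow_right (by omega) hE
      _ < (2 ^ k) ^ k := Nat.pow_lt_pow_left (two_sq_lt k hk) (by omega)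
      _ = 2 ^ (k ^ 2) := by rw [← pow_mul, sq]
  obtain ⟨X, hX, X', hX', hXX, hvv⟩ :=
    Finset.exists_ne_map_eq_of_card_lt_of_maps_to hTcard (f := v) hv
  rw [Finset.mem_powerset] at hX hX'
  let ep : Finset ℕ → ℤ := fun S => (if S ∈ X then 1 else 0) - (if S ∈ X' then 1 else 0)
  let c : ℕ → ℤ := fun x => ∑ S ∈ J', ep S * cf S x
  have hcE : ∀ x, x ∈ E → c x = 0 := by
    intro x hx
    have h1 : v X ⟨x, hx⟩ = v X' ⟨x, hx⟩ := by rw [hvv]
    have h2 : ∀ S ∈ J', ep S * cf S x = (if S ∈ X then cf S x else 0) - (if S ∈ X' then cf S x else 0) := by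
      intro S _
      simp only [ep, sub_mul, ite_mul, one_mul, zero_mul]
    show ∑ S ∈ J', ep S * cf S x = 0
    rw [Finset.sum_congr rfl h2, Finset.sum_sub_distrib, Finset.sum_ite_mem, Finset.sum_ite_mem,
      Finset.inter_eq_right.mpr hX, Finset.inter_eq_right.mpr hX']
    exact sub_eq_zero.mpr h1
  have hval : ∀ S, S ∈ J' → ∀ x, x ∈ S → c x = ep S * cf S x := by
    intro S hS x hx
    apply Finset.sum_eq_single_of_mem S hS
    intro S' hS' hne'
    have hxE : x ∉ E := by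
      rw [← hRE S hS] at hx
      exact (Finset.mem_sdiff.mp hx).2
    have : x ∉ R S' := by
      intro hxR
      have h3 : x ∈ S' := by rw [← hRE S' hS']; exact Finset.mem_sdiff.mpr ⟨hxR, hxE⟩
      exact (Finset.disjoint_left.mp (hd S' (hJ' hS') S (hJ' hS) hne')) h3 hx
    rw [hc0 S' hS' x this, mul_zero]
  let RR : Finset ℕ := (J'.filter (fun S => ep S ≠ 0)).biUnion id
  have hep : ∀ S, ep S = 1 ∨ ep S = 0 ∨ ep S = -1 := by
    intro S
    by_cases h1 : S ∈ X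
    · by_cases h2 : S ∈ X'
      · right; left; simp only [ep, if_pos h1, if_pos h2, sub_self]
      · left; simp only [ep, if_pos h1, if_neg h2, sub_zero]
    · by_cases h2 : S ∈ X'
      · right; right; simp only [ep, if_neg h1, if_pos h2, zero_sub]
      · right; left; simp only [ep, if_neg h1, if_neg h2, sub_self]
  have hRRA : RR ⊆ A := by
    intro x hx
    obtain ⟨S, hS, hxS⟩ := Finset.mem_biUnion.mp hx
    exact hSA S (Finset.mem_filter.mp hS).1 hxS
  have hoff : ∀ x, x ∉ RR → c x = 0 := by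
    intro x hx
    by_cases hxE : x ∈ E
    · exact hcE x hxE
    · apply Finset.sum_eq_zero
      intro S hS
      by_cases h1 : ep S = 0
      · rw [h1, zero_mul]
      · have : x ∉ R S := by
          intro hxR
          apply hx
          refine Finset.mem_biUnion.mpr ⟨S, Finset.mem_filter.mpr ⟨hS, h1⟩, ?_⟩
          show x ∈ S
          rw [← hRE S hS]
          exact Finset.mem_sdiff.mpr ⟨hxR, hxE⟩
        rw [hc0 S hS x this, mul_zero]
  refine hA RR hRRA ⟨?_, c, ?_, hoff, ?_⟩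
  · -- nonempty
    have h1 : ∃ S, S ∈ J' ∧ ep S ≠ 0 := by
      by_contra hno
      push Not at hno
      apply hXX
      ext S
      constructor
      · intro hS
        by_contra h2
        have h3 := hno S (hX hS)
        simp only [ep, if_pos hS, if_neg h2, sub_zero] at h3
        exact one_ne_zero h3
      · intro hS
        by_contra h2
        have h3 := hno S (hX' hS)
        simp only [ep, if_pos hS, if_neg h2, zero_sub] at h3
        exact absurd h3 (by norm_num)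
    obtain ⟨S, hS, hS2⟩ := h1
    obtain ⟨x, hx⟩ := hne S hS
    exact ⟨x, Finset.mem_biUnion.mpr ⟨S, Finset.mem_filter.mpr ⟨hS, hS2⟩, hx⟩⟩
  · intro x hx
    obtain ⟨S, hS, hxS⟩ := Finset.mem_biUnion.mp hx
    obtain ⟨hS1, hS2⟩ := Finset.mem_filter.mp hS
    have hxS' : x ∈ S := hxS
    rw [hval S hS1 x hxS']
    have hxR : x ∈ R S := by
      have h5 : x ∈ R S \ E := by rw [hRE S hS1]; exact hxS'
      exact (Finset.mem_sdiff.mp h5).1
    rcases hep S with h1 | h1 | h1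
    · rw [h1, one_mul]; exact hc1 S hS1 x hxR
    · exact absurd h1 hS2
    · rw [h1]
      rcases hc1 S hS1 x hxR with h2 | h2
      · right; rw [h2]; norm_num
      · left; rw [h2]; norm_num
  · let Z : Finset ℕ := J'.biUnion R
    have hRZ : RR ⊆ Z := by
      intro x hx
      obtain ⟨S, hS, hxS⟩ := Finset.mem_biUnion.mp hx
      have hS1 := (Finset.mem_filter.mp hS).1
      have hxS' : x ∈ S := hxS
      refine Finset.mem_biUnion.mpr ⟨S, hS1, ?_⟩
      rw [← hRE S hS1] at hxS'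
      exact (Finset.mem_sdiff.mp hxS').1
    have e1 : ∑ x ∈ RR, c x • b x = ∑ x ∈ Z, c x • b x := by
      apply Finset.sum_subset hRZ
      intro x _ hx
      rw [hoff x hx, zero_smul]
    have e2 : ∀ x ∈ Z, c x • b x = ∑ S ∈ J', ep S • (cf S x • b x) := by
      intro x _
      show (∑ S ∈ J', ep S * cf S x) • b x = _
      rw [Finset.sum_smul]
      apply Finset.sum_congr rfl
      intro S _
      rw [mul_smul]
    rw [e1, Finset.sum_congr rfl e2, Finset.sum_comm]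
    apply Finset.sum_eq_zero
    intro S hS
    rw [← Finset.smul_sum]
    have e3 : ∑ x ∈ Z, cf S x • b x = ∑ x ∈ R S, cf S x • b x := by
      symm
      apply Finset.sum_subset
      · intro x hx
        exact Finset.mem_biUnion.mpr ⟨S, hS, hx⟩
      · intro x _ hx
        rw [hc0 S hS x hx, zero_smul]
    rw [e3, hcs S hS, smul_zero]

lemma arith_df {e C : ℝ} (he : 0 < e) (he1 : e ≤ 1) (hC : 1 ≤ C) {k m t d j u : ℕ} (hm : 1 ≤ m)
    (h1 : t ≤ j + d) (h2 : j < k ^ 2) (h3 : u ≤ t * m) (h4 : (d : ℝ) ≤ C * (u : ℝ) ^ (1 - e)) :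
    (t : ℝ) ≤ 2 * (k : ℝ) ^ 2 + 2 ^ (1 / e) * C ^ (1 / e) * (m : ℝ) ^ (1 / e) := by
  have hpos : (0 : ℝ) ≤ 2 ^ (1 / e) * C ^ (1 / e) * (m : ℝ) ^ (1 / e) := by positivity
  by_contra hcon
  push Not at hcon
  have ht2 : 2 * (k : ℝ) ^ 2 < (t : ℝ) := by linarith
  have ht2' : 2 * k ^ 2 < t := by exact_mod_cast ht2
  have h5 : t ≤ 2 * d := by omega
  have h5' : (t : ℝ) ≤ 2 * (d : ℝ) := by exact_mod_cast h5
  have ht : 0 < t := by omega
  have ht' : (0 : ℝ) < (t : ℝ) := by exact_mod_cast ht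
  have hm' : (1 : ℝ) ≤ (m : ℝ) := by exact_mod_cast hm
  have h1e : 0 ≤ 1 - e := by linarith
  have h6 : (u : ℝ) ^ (1 - e) ≤ (t : ℝ) ^ (1 - e) * (m : ℝ) ^ (1 - e) := by
    rw [← Real.mul_rpow ht'.le (by linarith)]
    apply Real.rpow_le_rpow (Nat.cast_nonneg _) _ h1e
    exact_mod_cast h3
  have h7 : (t : ℝ) ≤ (2 * C * (m : ℝ) ^ (1 - e)) * (t : ℝ) ^ (1 - e) := by
    have h8 : C * (u : ℝ) ^ (1 - e) ≤ C * ((t : ℝ) ^ (1 - e) * (m : ℝ) ^ (1 - e)) :=
      mul_le_mul_of_nonneg_left h6 (by linarith)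
    calc (t : ℝ) ≤ 2 * (d : ℝ) := h5'
      _ ≤ 2 * (C * ((t : ℝ) ^ (1 - e) * (m : ℝ) ^ (1 - e))) := by linarith
      _ = (2 * C * (m : ℝ) ^ (1 - e)) * (t : ℝ) ^ (1 - e) := by ring
  have h8 : (t : ℝ) = (t : ℝ) ^ e * (t : ℝ) ^ (1 - e) := by
    rw [← Real.rpow_add ht']
    have : e + (1 - e) = 1 := by ring
    rw [this, Real.rpow_one]
  have h9 : (t : ℝ) ^ e ≤ 2 * C * (m : ℝ) ^ (1 - e) := by
    have h10 : (t : ℝ) ^ e * (t : ℝ) ^ (1 - e) ≤ (2 * C * (m : ℝ) ^ (1 - e)) * (t : ℝ) ^ (1 - e) := by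
      rw [← h8]; exact h7
    exact le_of_mul_le_mul_right h10 (Real.rpow_pos_of_pos ht' _)
  have h10 : (t : ℝ) ^ e ≤ 2 * C * (m : ℝ) := by
    refine h9.trans (mul_le_mul_of_nonneg_left ?_ (by linarith))
    calc (m : ℝ) ^ (1 - e) ≤ (m : ℝ) ^ (1 : ℝ) :=
          Real.rpow_le_rpow_of_exponent_le hm' (by linarith)
      _ = (m : ℝ) := Real.rpow_one _
  have h11 : (t : ℝ) ≤ (2 * C * (m : ℝ)) ^ (1 / e) := by
    calc (t : ℝ) = ((t : ℝ) ^ e) ^ (1 / e) := by
          rw [← Real.rpow_mul ht'.le]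
          have : e * (1 / e) = 1 := by field_simp
          rw [this, Real.rpow_one]
      _ ≤ (2 * C * (m : ℝ)) ^ (1 / e) :=
          Real.rpow_le_rpow (Real.rpow_nonneg ht'.le _) h10 (by positivity)
  have h12 : (2 * C * (m : ℝ)) ^ (1 / e) = 2 ^ (1 / e) * C ^ (1 / e) * (m : ℝ) ^ (1 / e) := by
    rw [Real.mul_rpow (by linarith) (by linarith), Real.mul_rpow (by norm_num) (by linarith)]
  rw [h12] at h11
  have h13 : (0 : ℝ) ≤ 2 * (k : ℝ) ^ 2 := by positivity
  linarith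

/-- Validity of a family of short relations over `E`. -/
def Val (b : ℕ → G) (E : Finset ℕ) (m : ℕ) (J : Finset (Finset ℕ)) : Prop :=
  (∀ S, S ∈ J → S.Nonempty ∧ S.card ≤ m ∧ ∃ R : Finset ℕ, Dep b R ∧ R \ E = S) ∧
  (∀ S, S ∈ J → ∀ S', S' ∈ J → S ≠ S' → Disjoint S S')

/-- A disjoint family of short relations over `E` is small. -/
lemma val_bound {b : ℕ → G} {e C : ℝ} (he : 0 < e) (he1 : e ≤ 1) (hC : 1 ≤ C)
    (h : Hyp b e C) {E : Finset ℕ} {k m : ℕ} (hm : 1 ≤ m)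
    (hE : E.card ≤ k) (hk : 8 ≤ k) {J : Finset (Finset ℕ)} (hJ : Val b E m J) :
    (J.card : ℝ) ≤ 2 * (k : ℝ) ^ 2 + 2 ^ (1 / e) * C ^ (1 / e) * (m : ℝ) ^ (1 / e) := by
  classical
  obtain ⟨A, hAU, hA, hcard⟩ := h (J.biUnion id)
  have h1 : (J.filter (fun S => S ⊆ A)).card < k ^ 2 := by
    apply no_big hE hk hA
    · intro S hS
      obtain ⟨hS1, hS2⟩ := Finset.mem_filter.mp hS
      exact ⟨(hJ.1 S hS1).1, hS2, (hJ.1 S hS1).2.2⟩
    · intro S hS S' hS' hne
      exact hJ.2 S (Finset.mem_filter.mp hS).1 S' (Finset.mem_filter.mp hS').1 hne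
  have h2 : (J.filter (fun S => ¬ S ⊆ A)).card ≤ (J.biUnion id \ A).card := by
    have hx : ∀ S, S ∈ J.filter (fun S => ¬ S ⊆ A) → ∃ x, x ∈ S ∧ x ∉ A := by
      intro S hS
      have h3 := (Finset.mem_filter.mp hS).2
      rw [Finset.not_subset] at h3
      exact h3
    choose! f hf1 hf2 using hx
    apply Finset.card_le_card_of_injOn f
    · intro S hS
      have hS' : S ∈ J.filter (fun S => ¬ S ⊆ A) := hS
      exact Finset.mem_sdiff.mpr ⟨Finset.mem_biUnion.mpr ⟨S, (Finset.mem_filter.mp hS').1, hf1 S hS'⟩,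
        hf2 S hS'⟩
    · intro S hS S' hS' heq
      have hS1 : S ∈ J.filter (fun S => ¬ S ⊆ A) := hS
      have hS2 : S' ∈ J.filter (fun S => ¬ S ⊆ A) := hS'
      by_contra hne
      have h4 := hJ.2 S (Finset.mem_filter.mp hS1).1 S' (Finset.mem_filter.mp hS2).1 hne
      have h5 := hf1 S hS1
      have h6 := hf1 S' hS2
      rw [← heq] at h6
      exact (Finset.disjoint_left.mp h4) h5 h6
  have h3 : (J.biUnion id).card ≤ J.card * m :=
    Finset.card_biUnion_le_card_mul _ _ _ (fun S hS => (hJ.1 S hS).2.1)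
  have h4 := Finset.card_filter_add_card_filter_not (s := J) (fun S => S ⊆ A)
  exact arith_df he he1 hC (j := (J.filter (fun S => S ⊆ A)).card)
    (d := (J.biUnion id \ A).card) hm (by omega) h1 h3 hcard

/-- A small set hitting all relations with few terms outside `E`. -/
lemma hit {b : ℕ → G} {e C : ℝ} (he : 0 < e) (he1 : e ≤ 1) (hC : 1 ≤ C)
    (h : Hyp b e C) (E : Finset ℕ) {k m : ℕ} (hm : 1 ≤ m)
    (hE : E.card ≤ k) (hk : 8 ≤ k) :
    ∃ T : Finset ℕ, Disjoint T E ∧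
      (T.card : ℝ) ≤ (2 * (k : ℝ) ^ 2 + 2 ^ (1 / e) * C ^ (1 / e) * (m : ℝ) ^ (1 / e)) * (m : ℝ) ∧
      ∀ R : Finset ℕ, Dep b R → ¬ R ⊆ E → (R \ E).card ≤ m → (R ∩ T).Nonempty := by
  classical
  obtain ⟨B, hB⟩ : ∃ B : ℕ,
      2 * (k : ℝ) ^ 2 + 2 ^ (1 / e) * C ^ (1 / e) * (m : ℝ) ^ (1 / e) ≤ (B : ℝ) :=
    exists_nat_ge _
  let Q : ℕ → Prop := fun n => ∃ J, Val b E m J ∧ J.card = n
  have hQ0 : Q 0 := by
    refine ⟨∅, ⟨?_, ?_⟩, Finset.card_empty⟩
    · intro S hS; exact absurd hS (Finset.notMem_empty S)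
    · intro S hS; exact absurd hS (Finset.notMem_empty S)
  have hspec : Q (Nat.findGreatest Q B) := Nat.findGreatest_spec (m := 0) (Nat.zero_le B) hQ0
  obtain ⟨J, hJ, hJc⟩ := hspec
  have hmax : ∀ J', Val b E m J' → J'.card ≤ J.card := by
    intro J' hJ'
    rw [hJc]
    have h1 : J'.card ≤ B := by
      exact_mod_cast (val_bound he he1 hC h hm hE hk hJ').trans hB
    exact Nat.le_findGreatest h1 ⟨J', hJ', rfl⟩
  refine ⟨J.biUnion id, ?_, ?_, ?_⟩
  · rw [Finset.disjoint_left]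
    intro x hx hxE
    obtain ⟨S, hS, hxS⟩ := Finset.mem_biUnion.mp hx
    have hxS' : x ∈ S := hxS
    obtain ⟨R, -, hRE⟩ := (hJ.1 S hS).2.2
    rw [← hRE] at hxS'
    exact (Finset.mem_sdiff.mp hxS').2 hxE
  · have h1 : (J.biUnion id).card ≤ J.card * m :=
      Finset.card_biUnion_le_card_mul _ _ _ (fun S hS => (hJ.1 S hS).2.1)
    calc ((J.biUnion id).card : ℝ) ≤ (J.card : ℝ) * (m : ℝ) := by exact_mod_cast h1
      _ ≤ _ := mul_le_mul_of_nonneg_right (val_bound he he1 hC h hm hE hk hJ) (Nat.cast_nonneg _)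
  · intro R hR hRE hRm
    by_contra hno
    rw [Finset.not_nonempty_iff_eq_empty] at hno
    have hne : (R \ E).Nonempty := by
      rw [Finset.sdiff_nonempty]; exact hRE
    have hdis : ∀ S, S ∈ J → Disjoint (R \ E) S := by
      intro S hS
      rw [Finset.disjoint_left]
      intro x hx hxS
      have : x ∈ R ∩ J.biUnion id :=
        Finset.mem_inter.mpr ⟨(Finset.mem_sdiff.mp hx).1, Finset.mem_biUnion.mpr ⟨S, hS, hxS⟩⟩
      rw [hno] at this
      exact absurd this (Finset.notMem_empty x)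
    have hnotin : R \ E ∉ J := by
      intro hin
      obtain ⟨x, hx⟩ := hne
      exact (Finset.disjoint_left.mp (hdis _ hin)) hx hx
    have hv : Val b E m (insert (R \ E) J) := by
      refine ⟨?_, ?_⟩
      · intro S hS
        rcases Finset.mem_insert.mp hS with h1 | h1
        · rw [h1]; exact ⟨hne, hRm, R, hR, rfl⟩
        · exact hJ.1 S h1
      · intro S hS S' hS' hne'
        rcases Finset.mem_insert.mp hS with h1 | h1
        · rcases Finset.mem_insert.mp hS' with h2 | h2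
          · exact absurd (h1.trans h2.symm) hne'
          · rw [h1]; exact hdis S' h2
        · rcases Finset.mem_insert.mp hS' with h2 | h2
          · rw [h2]; exact (hdis S h1).symm
          · exact hJ.2 S h1 S' h2 hne'
    have h5 := hmax _ hv
    rw [Finset.card_insert_of_notMem hnotin] at h5
    omega

end NI12
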