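import Pool.Agent.NI12.Colour

/-!
# Blocks of polynomially growing size, and the main theorem
-/

set_option autoImplicit false

namespace NI12

open Finset

/-- The exponent of growth of the blocks. -/
noncomputable def cc (e : ℝ) : ℝ := 2 / e + 5

/-- The size of the first block. -/
noncomputable def kk (e C : ℝ) : ℕ := ⌈8 + (C ^ (1 / e)) ^ 2 + 2 ^ (1 / e)⌉₊

lemma kk_ge {e C : ℝ} {k : ℕ} (hk : kk e C ≤ k) :
    8 + (C ^ (1 / e)) ^ 2 + 2 ^ (1 / e) ≤ (k : ℝ) :=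
  (Nat.le_ceil _).trans (by exact_mod_cast hk)

lemma D_ge {e C : ℝ} (he : 0 < e) (hC : 1 ≤ C) : 1 ≤ C ^ (1 / e) :=
  Real.one_le_rpow hC (by positivity)

lemma arith_step {e C : ℝ} (he : 0 < e) (hC : 1 ≤ C) {k : ℕ} (hk : kk e C ≤ k) :
    (k : ℝ) + (2 * (k : ℝ) ^ 2 + 2 ^ (1 / e) * C ^ (1 / e) * ((2 * k + 2 : ℕ) : ℝ) ^ (1 / e))
      * ((2 * k + 2 : ℕ) : ℝ) + 1 ≤ (k : ℝ) ^ (cc e) := by
  have h0 := kk_ge hk
  have hD := D_ge he hC
  have h2 : (0 : ℝ) ≤ 2 ^ (1 / e) := by positivity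
  obtain ⟨K, hK⟩ : ∃ K : ℝ, K = (k : ℝ) := ⟨_, rfl⟩
  obtain ⟨D, hDd⟩ : ∃ D : ℝ, D = C ^ (1 / e) := ⟨_, rfl⟩
  obtain ⟨T, hT⟩ : ∃ T : ℝ, T = 2 ^ (1 / e) := ⟨_, rfl⟩
  rw [← hK, ← hDd, ← hT] at h0
  rw [← hDd] at hD
  rw [← hT] at h2
  have hDD : D ≤ D ^ 2 := by nlinarith
  have hK8 : 8 ≤ K := by nlinarith
  have hDK : D ≤ K := by linarith
  have hTK : T ≤ K := by nlinarith
  have hK0 : 0 < K := by linarith
  have hm : ((2 * k + 2 : ℕ) : ℝ) ≤ K ^ 2 := by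
    push_cast
    rw [← hK]
    nlinarith
  have hm0 : (0 : ℝ) ≤ ((2 * k + 2 : ℕ) : ℝ) := Nat.cast_nonneg _
  obtain ⟨Z, hZ⟩ : ∃ Z : ℝ, Z = K ^ (2 / e) := ⟨_, rfl⟩
  have hZ1 : 1 ≤ Z := by rw [hZ]; exact Real.one_le_rpow (by linarith) (by positivity)
  have hmZ : ((2 * k + 2 : ℕ) : ℝ) ^ (1 / e) ≤ Z := by
    calc ((2 * k + 2 : ℕ) : ℝ) ^ (1 / e) ≤ (K ^ 2) ^ (1 / e) :=
          Real.rpow_le_rpow hm0 hm (by positivity)
      _ = Z := by
          rw [hZ, ← Real.rpow_natCast K 2, ← Real.rpow_mul hK0.le]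
          congr 1
          push_cast
          ring
  have hmZ0 : 0 ≤ ((2 * k + 2 : ℕ) : ℝ) ^ (1 / e) := Real.rpow_nonneg hm0 _
  have h3 : T * D * ((2 * k + 2 : ℕ) : ℝ) ^ (1 / e) ≤ K * K * Z :=
    mul_le_mul (mul_le_mul hTK hDK (by linarith) hK0.le) hmZ hmZ0 (by positivity)
  have h4 : 2 * K ^ 2 + T * D * ((2 * k + 2 : ℕ) : ℝ) ^ (1 / e) ≤ 3 * K ^ 2 * Z := by
    have : 2 * K ^ 2 ≤ 2 * K ^ 2 * Z := by nlinarith [sq_nonneg K]
    nlinarith
  have h5 : (2 * K ^ 2 + T * D * ((2 * k + 2 : ℕ) : ℝ) ^ (1 / e)) * ((2 * k + 2 : ℕ) : ℝ)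
      ≤ 3 * K ^ 2 * Z * K ^ 2 :=
    mul_le_mul h4 hm hm0 (by positivity)
  have h6 : K + 1 ≤ K ^ 4 * Z := by
    have h7 : K + 1 ≤ K ^ 2 := by nlinarith
    have h8 : K ^ 2 ≤ K ^ 4 := pow_le_pow_right₀ (by linarith) (by norm_num)
    have h9 : K ^ 4 ≤ K ^ 4 * Z := le_mul_of_one_le_right (by positivity) hZ1
    linarith
  have h7 : K ^ (cc e) = K ^ 5 * Z := by
    unfold cc
    rw [Real.rpow_add hK0, hZ, mul_comm]
    congr 1
    rw [← Real.rpow_natCast K 5]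
    norm_num
  have h8 : 4 * (K ^ 4 * Z) ≤ K ^ 5 * Z := by
    have h9 : 0 ≤ K ^ 4 * Z := by positivity
    have h10 : K ^ 5 * Z = K * (K ^ 4 * Z) := by ring
    rw [h10]
    exact mul_le_mul_of_nonneg_right (by linarith) h9
  rw [← hK, ← hDd, ← hT, h7]
  have h9 : 3 * K ^ 2 * Z * K ^ 2 = 3 * (K ^ 4 * Z) := by ring
  linarith

/-- The blocks. -/
structure Blk {G : Type} [AddCommGroup G] (b : ℕ → G) (e C : ℝ) (E : ℕ → Finset ℕ) : Prop where
  zero : (E 0).card = kk e C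
  mono : ∀ i, E i ⊆ E (i + 1)
  card : ∀ i, ((E (i + 1)).card : ℝ) ≤ ((E i).card : ℝ) ^ (cc e)
  mem : ∀ i, i ∈ E (i + 1)
  hit : ∀ i (R : Finset ℕ), Dep b R → ¬ R ⊆ E i → (R \ E i).card ≤ 2 * (E i).card + 2 →
    ∃ x, x ∈ R ∧ x ∈ E (i + 1) ∧ x ∉ E i

lemma kk_eight {e C : ℝ} {k : ℕ} (hk : kk e C ≤ k) : 8 ≤ k := by
  have h1 := kk_ge hk
  have h2 : (0 : ℝ) ≤ 2 ^ (1 / e) := by positivity
  have h3 : (8 : ℝ) ≤ (k : ℝ) := by nlinarith [sq_nonneg (C ^ (1 / e))]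
  exact_mod_cast h3

lemma exists_blk {G : Type} [AddCommGroup G] {b : ℕ → G} {e C : ℝ} (he : 0 < e) (he1 : e ≤ 1)
    (hC : 1 ≤ C) (h : Hyp b e C) : ∃ E : ℕ → Finset ℕ, Blk b e C E := by
  classical
  have h1 : ∀ E : Finset ℕ, ∃ T : Finset ℕ, kk e C ≤ E.card →
      (Disjoint T E ∧
        (T.card : ℝ) ≤ (2 * (E.card : ℝ) ^ 2 + 2 ^ (1 / e) * C ^ (1 / e)
          * ((2 * E.card + 2 : ℕ) : ℝ) ^ (1 / e)) * ((2 * E.card + 2 : ℕ) : ℝ) ∧
        ∀ R : Finset ℕ, Dep b R → ¬ R ⊆ E → (R \ E).card ≤ 2 * E.card + 2 →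
          (R ∩ T).Nonempty) := by
    intro E
    by_cases hE : kk e C ≤ E.card
    · obtain ⟨T, hT⟩ := NI12.hit he he1 hC h E (k := E.card) (m := 2 * E.card + 2) (by omega)
        le_rfl (kk_eight hE)
      exact ⟨T, fun _ => hT⟩
    · exact ⟨∅, fun h2 => absurd h2 hE⟩
  choose T hT using h1
  let E : ℕ → Finset ℕ := fun i => Nat.rec (Finset.range (kk e C)) (fun i F => F ∪ T F ∪ {i}) i
  have hE0 : E 0 = Finset.range (kk e C) := rfl
  have hES : ∀ i, E (i + 1) = E i ∪ T (E i) ∪ {i} := fun i => rfl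
  have hmono : ∀ i, E i ⊆ E (i + 1) := by
    intro i
    rw [hES]
    exact Finset.subset_union_left.trans Finset.subset_union_left
  have hk : ∀ i, kk e C ≤ (E i).card := by
    intro i
    induction i with
    | zero => rw [hE0, Finset.card_range]
    | succ i ih => exact ih.trans (Finset.card_le_card (hmono i))
  refine ⟨E, ?_, hmono, ?_, ?_, ?_⟩
  · rw [hE0, Finset.card_range]
  · intro i
    obtain ⟨-, h2, -⟩ := hT (E i) (hk i)
    have h4 : (E (i + 1)).card ≤ (E i).card + (T (E i)).card + 1 := by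
      rw [hES]
      refine (Finset.card_union_le _ _).trans ?_
      rw [Finset.card_singleton]
      exact Nat.add_le_add_right (Finset.card_union_le _ _) 1
    have h5 := arith_step he hC (hk i)
    have h6 : ((E (i + 1)).card : ℝ) ≤ ((E i).card : ℝ) + ((T (E i)).card : ℝ) + 1 := by
      exact_mod_cast h4
    linarith
  · intro i
    rw [hES]
    exact Finset.mem_union_right _ (Finset.mem_singleton_self i)
  · intro i R hR h2 h3
    obtain ⟨h4, -, h5⟩ := hT (E i) (hk i)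
    obtain ⟨x, hx⟩ := h5 R hR h2 h3
    obtain ⟨h6, h7⟩ := Finset.mem_inter.mp hx
    refine ⟨x, h6, ?_, Finset.disjoint_left.mp h4 h7⟩
    rw [hES]
    exact Finset.mem_union_left _ (Finset.mem_union_right _ h7)

lemma mono_all {E : ℕ → Finset ℕ} (h : ∀ i, E i ⊆ E (i + 1)) {i j : ℕ} (hij : i ≤ j) :
    E i ⊆ E j := by
  induction j, hij using Nat.le_induction with
  | base => exact Finset.Subset.refl _
  | succ n _ ih => exact ih.trans (h n)

lemma cc_pos {e : ℝ} (he : 0 < e) : 0 < cc e := by unfold cc; positivity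

/-- The colouring of the block `E (i + 2) \ E (i + 1)`. -/
lemma block_colour {G : Type} [AddCommGroup G] {b : ℕ → G} {e C : ℝ} (he : 0 < e) (he1 : e ≤ 1)
    (hC : 1 ≤ C) (h : Hyp b e C) {E : ℕ → Finset ℕ} (hE : Blk b e C E) {j : ℕ}
    (hj : cc e * cc e * (1 - e) ^ j ≤ 1 / 2) (i : ℕ) :
    ∃ χ : ℕ → ℕ, (∀ x, χ x < 4 * j + 1) ∧
      ∀ R : Finset ℕ, R ⊆ E i ∪ (E (i + 2) \ E (i + 1)) → Dep b R →
        (R ∩ (E (i + 2) \ E (i + 1))).Nonempty →
        ∀ l, ¬ ∀ x, x ∈ R ∩ (E (i + 2) \ E (i + 1)) → χ x = l := by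
  classical
  have hk : kk e C ≤ (E i).card := by
    rw [← hE.zero]
    exact Finset.card_le_card (mono_all hE.mono (Nat.zero_le i))
  have hs8 := kk_eight hk
  have hs : 1 ≤ (E i).card := by omega
  have hge := kk_ge hk
  have hs' : (1 : ℝ) ≤ ((E i).card : ℝ) := by exact_mod_cast hs
  have hD := D_ge he hC
  have hsC : C ^ (1 / e) * ((E i).card : ℝ) ^ (1 / 2 : ℝ) ≤ ((E i).card : ℝ) := by
    have h2 : (0 : ℝ) ≤ 2 ^ (1 / e) := by positivity
    have h3 : (C ^ (1 / e)) ^ 2 ≤ ((E i).card : ℝ) := by linarith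
    have h4 : C ^ (1 / e) ≤ ((E i).card : ℝ) ^ (1 / 2 : ℝ) := by
      rw [← Real.sqrt_eq_rpow]
      exact Real.le_sqrt_of_sq_le h3
    have h5 : (0 : ℝ) ≤ ((E i).card : ℝ) ^ (1 / 2 : ℝ) := Real.rpow_nonneg (by linarith) _
    calc C ^ (1 / e) * ((E i).card : ℝ) ^ (1 / 2 : ℝ)
        ≤ ((E i).card : ℝ) ^ (1 / 2 : ℝ) * ((E i).card : ℝ) ^ (1 / 2 : ℝ) :=
          mul_le_mul_of_nonneg_right h4 h5
      _ = ((E i).card : ℝ) := by
          rw [← Real.rpow_add (by linarith)]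
          norm_num
  have hdis : Disjoint (E i) (E (i + 2) \ E (i + 1)) := by
    rw [Finset.disjoint_left]
    intro x hx hx2
    exact (Finset.mem_sdiff.mp hx2).2 (hE.mono i hx)
  apply rcl he he1 hC h hs hsC (Y := E i) le_rfl j (cc e * cc e) (E (i + 2) \ E (i + 1)) hdis hj
  · have hc0 := (cc_pos he).le
    have h1 : ((E (i + 2) \ E (i + 1)).card : ℝ) ≤ ((E (i + 2)).card : ℝ) := by
      exact_mod_cast Finset.card_le_card Finset.sdiff_subset
    calc ((E (i + 2) \ E (i + 1)).card : ℝ) ≤ ((E (i + 2)).card : ℝ) := h1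
      _ ≤ ((E (i + 1)).card : ℝ) ^ (cc e) := hE.card (i + 1)
      _ ≤ (((E i).card : ℝ) ^ (cc e)) ^ (cc e) :=
          Real.rpow_le_rpow (Nat.cast_nonneg _) (hE.card i) hc0
      _ = ((E i).card : ℝ) ^ (cc e * cc e) := by rw [← Real.rpow_mul (by linarith)]
      _ ≤ C ^ (1 / e) * ((E i).card : ℝ) ^ (cc e * cc e) :=
          le_mul_of_one_le_left (Real.rpow_nonneg (by linarith) _) hD
  · intro R hR hRd hRn
    by_contra hcon
    push Not at hcon
    have h1 : R \ E i ⊆ R ∩ (E (i + 2) \ E (i + 1)) := by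
      intro x hx
      obtain ⟨h2, h3⟩ := Finset.mem_sdiff.mp hx
      rcases Finset.mem_union.mp (hR h2) with h4 | h4
      · exact absurd h4 h3
      · exact Finset.mem_inter.mpr ⟨h2, h4⟩
    have h2 : ¬ R ⊆ E i := by
      intro h3
      obtain ⟨x, hx⟩ := hRn
      obtain ⟨h4, h5⟩ := Finset.mem_inter.mp hx
      exact (Finset.disjoint_left.mp hdis (h3 h4)) h5
    obtain ⟨x, hx1, hx2, hx3⟩ := hE.hit i R hRd h2 ((Finset.card_le_card h1).trans hcon)
    rcases Finset.mem_union.mp (hR hx1) with h4 | h4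
    · exact hx3 h4
    · exact (Finset.mem_sdiff.mp h4).2 hx2

lemma arith_col {K L a a' c c' : ℕ} (hc : c < L) (hc' : c' < L) (ha : a < 2) (ha' : a' < 2)
    (h : K + L * a + c = K + L * a' + c') : a = a' ∧ c = c' := by
  have h1 : a = 0 ∨ a = 1 := by omega
  have h2 : a' = 0 ∨ a' = 1 := by omega
  rcases h1 with h1 | h1 <;> rcases h2 with h2 | h2
  · subst h1; subst h2
    simp only [Nat.mul_zero] at h
    omega
  · subst h1; subst h2
    simp only [Nat.mul_zero, Nat.mul_one] at h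
    omega
  · subst h1; subst h2
    simp only [Nat.mul_zero, Nat.mul_one] at h
    omega
  · subst h1; subst h2
    simp only [Nat.mul_one] at h
    omega

lemma arith_bound {K L a c : ℕ} (hc : c < L) (ha : a < 2) : K + L * a + c < K + 2 * L := by
  have h1 : a = 0 ∨ a = 1 := by omega
  rcases h1 with h1 | h1
  · subst h1; simp only [Nat.mul_zero]; omega
  · subst h1; simp only [Nat.mul_one]; omega

theorem main {e C : ℝ} (he : 0 < e) (he1 : e ≤ 1) (hC : 1 ≤ C) {n j1 j2 : ℕ}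
    (hn : 2 * C ^ (1 / e) ≤ (n : ℝ)) (hj1 : cc e * cc e * (1 - e) ^ j1 ≤ 1 / 2)
    (hj2 : Real.logb 2 (kk e C) * cc e * (1 - e) ^ j2 ≤ 1)
    {G : Type} [AddCommGroup G] {b : ℕ → G} (hb : ∀ i, b i ≠ 0) (h : Hyp b e C) :
    ∃ c : ℕ → Fin ((n + j2) + 2 * (4 * j1 + 1)), ∀ k : Fin ((n + j2) + 2 * (4 * j1 + 1)),
      ∀ R : Finset ℕ, (∀ x, x ∈ R → c x = k) → ¬ Dep b R := by
  classical
  obtain ⟨E, hE⟩ := exists_blk he he1 hC h
  choose χ hχ hχ' using fun i => block_colour he he1 hC h hE hj1 i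
  have hkk0 : (0 : ℝ) < (kk e C : ℝ) := by
    have h1 := kk_eight (le_refl (kk e C))
    have h2 : (8 : ℝ) ≤ (kk e C : ℝ) := by exact_mod_cast h1
    linarith
  obtain ⟨f, hf, hf'⟩ := greedy hb he he1 hC h hn j2 (Real.logb 2 (kk e C) * cc e) (E 1) hj2 (by
    have h1 := hE.card 0
    rw [hE.zero] at h1
    rw [Real.rpow_mul (by norm_num), Real.rpow_logb (by norm_num) (by norm_num) hkk0]
    exact h1.trans (le_mul_of_one_le_left (Real.rpow_nonneg hkk0.le _) (D_ge he hC)))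
  have hex : ∀ x, ∃ i, x ∈ E i := fun x => ⟨x + 1, hE.mem x⟩
  let idx : ℕ → ℕ := fun x => Nat.find (hex x)
  have hidx : ∀ x, x ∈ E (idx x) := fun x => Nat.find_spec (hex x)
  have hidx2 : ∀ x j, j < idx x → x ∉ E j := fun x j hj => Nat.find_min (hex x) hj
  obtain ⟨K1, hK1⟩ : ∃ K1, K1 = n + j2 := ⟨_, rfl⟩
  obtain ⟨L, hL⟩ : ∃ L, L = 4 * j1 + 1 := ⟨_, rfl⟩
  rw [← hK1] at hf ⊢
  rw [← hL] at hχ ⊢
  let g : ℕ → ℕ := fun x => if idx x ≤ 1 then f x else K1 + L * (idx x % 2) + χ (idx x - 2) x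
  have hg : ∀ x, g x < K1 + 2 * L := by
    intro x
    by_cases hx : idx x ≤ 1
    · have h1 : g x = f x := if_pos hx
      have h2 := hf x
      omega
    · have h1 : g x = K1 + L * (idx x % 2) + χ (idx x - 2) x := if_neg hx
      rw [h1]
      exact arith_bound (hχ _ x) (Nat.mod_lt _ (by norm_num))
  refine ⟨fun x => ⟨g x, hg x⟩, ?_⟩
  intro k R hR hD
  have hR' : ∀ x, x ∈ R → g x = (k : ℕ) := by
    intro x hx
    have h1 := hR x hx
    exact congrArg Fin.val h1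
  by_cases hA : ∃ x, x ∈ R ∧ idx x ≤ 1
  · obtain ⟨x0, hx0, hi0⟩ := hA
    have h1 : g x0 = f x0 := if_pos hi0
    have h6 : ∀ x, x ∈ R → idx x ≤ 1 := by
      intro x hx
      have h3 := hR' x hx
      have h4 := hR' x0 hx0
      have h5 := hf x0
      by_contra hcon
      have h7 : g x = K1 + L * (idx x % 2) + χ (idx x - 2) x := if_neg hcon
      have h8 : K1 ≤ g x := by rw [h7, add_assoc]; exact Nat.le_add_right _ _
      omega
    apply hf' R _ hD (k : ℕ)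
    · intro x hx
      have h7 : g x = f x := if_pos (h6 x hx)
      rw [← h7]
      exact hR' x hx
    · intro x hx
      exact mono_all hE.mono (h6 x hx) (hidx x)
  · push Not at hA
    obtain ⟨x0, hx0, hmax⟩ := Finset.exists_max_image R idx hD.1
    obtain ⟨i, hi⟩ : ∃ i, idx x0 = i + 2 := ⟨idx x0 - 2, by have := hA x0 hx0; omega⟩
    have hform : ∀ x, x ∈ R → g x = K1 + L * (idx x % 2) + χ (idx x - 2) x := by
      intro x hx
      exact if_neg (by have := hA x hx; omega)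
    have hcmp : ∀ x, x ∈ R → idx x % 2 = idx x0 % 2 ∧ χ (idx x - 2) x = χ (idx x0 - 2) x0 := by
      intro x hx
      have h1 := hR' x hx
      have h2 := hR' x0 hx0
      rw [hform x hx] at h1
      rw [hform x0 hx0, ← h1] at h2
      exact arith_col (hχ _ x) (hχ _ x0) (Nat.mod_lt _ (by norm_num)) (Nat.mod_lt _ (by norm_num))
        h2.symm
    have hUmem : ∀ x, x ∈ R → idx x = i + 2 → x ∈ E (i + 2) \ E (i + 1) := by
      intro x _ hx2
      refine Finset.mem_sdiff.mpr ⟨?_, hidx2 x (i + 1) (by omega)⟩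
      rw [← hx2]
      exact hidx x
    have hsub : R ⊆ E i ∪ (E (i + 2) \ E (i + 1)) := by
      intro x hx
      have h1 := hmax x hx
      have h2 := (hcmp x hx).1
      by_cases h3 : idx x = i + 2
      · exact Finset.mem_union_right _ (hUmem x hx h3)
      · apply Finset.mem_union_left
        exact mono_all hE.mono (by omega) (hidx x)
    apply hχ' i R hsub hD ⟨x0, Finset.mem_inter.mpr ⟨hx0, hUmem x0 hx0 hi⟩⟩ (χ i x0)
    intro x hx
    obtain ⟨h1, h2⟩ := Finset.mem_inter.mp hx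
    have h3 : idx x = i + 2 := by
      have h4 := hmax x h1
      by_contra hne
      have h5 := (hcmp x h1).1
      have h6 : idx x ≤ i + 1 := by omega
      exact (Finset.mem_sdiff.mp h2).2 (mono_all hE.mono h6 (hidx x))
    have h4 := (hcmp x h1).2
    rw [h3, hi] at h4
    exact h4

end NI12
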