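import Pool.Agent.NI12.Sep

/-!
# A normal form for counterexamples

If the statement of the problem fails, then it fails for a sequence with asymptotically full
independence in which short relations die out.
-/

set_option autoImplicit false
set_option linter.unusedSectionVars false

namespace NI12

open Finset
open Pool.Agent.PSR10 (Indep Fr Prop' PisierAt)

/-- Every `n` terms contain `n - o(n)` independent terms. -/
def AsymFull (b : ℕ → ℤ) : Prop :=
  ∀ e : ℝ, 0 < e → ∃ n0 : ℕ, ∀ F : Finset ℕ, n0 ≤ F.card →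
    ∃ A : Finset ℕ, A ⊆ F ∧ (1 - e) * (F.card : ℝ) ≤ (A.card : ℝ) ∧ Indep b A

/-- Relations of bounded length and with bounded coefficients involve only finitely many terms. -/
def ShortFinite (b : ℕ → ℤ) : Prop :=
  ∀ m r : ℕ, ∃ n0 : ℕ, ∀ N : Finset ℕ, N.card ≤ r → ∀ a : ℕ → ℤ,
    (∀ i, i ∈ N → a i ≠ 0 ∧ |a i| ≤ (m : ℤ)) → ∑ i ∈ N, a i * b i = 0 → ∀ i, i ∈ N → i < n0

/-- The sequence is a union of finitely many independent sequences. -/
def FinUnion (b : ℕ → ℤ) : Prop :=
  ∃ K : ℕ, ∃ c : ℕ → Fin K, ∀ k : Fin K, ∀ F : Finset ℕ, (∀ i, i ∈ F → c i = k) → Indep b F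

lemma fr_pull {ι κ G H : Type*} [DecidableEq ι] [DecidableEq κ] [AddCommGroup G] [AddCommGroup H]
    {m r : ℕ} {b : ι → G} {b' : κ → H} {g : ι → κ} {φ : H →+ G}
    (hφ : Function.Injective φ) {s : Finset ι} (hg : Set.InjOn g s)
    (hb : ∀ i, i ∈ s → b i = φ (b' (g i))) (h : Fr m r b' (s.image g)) : Fr m r b s := by
  classical
  intro N hN hne hcard c hc h0
  have hgN : Set.InjOn g (N : Set ι) := fun x hx y hy hxy => hg (hN hx) (hN hy) hxy
  obtain ⟨i0, hi0⟩ := hne
  have : Nonempty ι := ⟨i0⟩
  have hinv : ∀ i, i ∈ N → Function.invFunOn g (N : Set ι) (g i) = i := fun i hi =>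
    hgN.leftInvOn_invFunOn hi
  refine h (N.image g) (Finset.image_subset_image hN) ⟨g i0, Finset.mem_image_of_mem g hi0⟩
    (Finset.card_image_le.trans hcard) (fun x => c (Function.invFunOn g (N : Set ι) x)) ?_ ?_
  · intro x hx
    obtain ⟨i, hi, hix⟩ := Finset.mem_image.mp hx
    rw [← hix]
    show c (Function.invFunOn g (N : Set ι) (g i)) ≠ 0 ∧ _
    rw [hinv i hi]
    exact hc i hi
  · apply hφ
    rw [map_zero, ← sum_pull hg hb hN (fun x => c (Function.invFunOn g (N : Set ι) x))]
    rw [← h0]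
    apply Finset.sum_congr rfl
    intro i hi
    rw [hinv i hi]

variable {B : ℕ → Finset ℕ} {b : ℕ → ℤ} {blk be : ℕ → ℕ}

lemma Dir.idx_le (D : Dir B b blk be) {i J : ℕ} (h : blk i < J) : i ≤ TT B J := by
  have h1 : ∀ n : ℕ, (n : ℤ) ≤ b n := by
    intro n
    induction n with
    | zero => exact (D.pos 0).le
    | succ n ih =>
      have h2 := D.mono (Nat.lt_succ_self n)
      push_cast
      have h3 : b n + 1 ≤ b (n + 1) := h2
      linarith
  have h2 : b i ≤ (TT B J : ℤ) := by
    rw [D.val i]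
    have h3 : NN B (blk i) * be i ≤ TT B J := (elt_le (D.mem i)).trans (TT_mono h)
    exact_mod_cast h3
  have h3 := (h1 i).trans h2
  exact_mod_cast h3

lemma dir_short (D : Dir B b blk be) (hF : ∀ j, Fr (j + 1) (j + 1) cst (B j)) : ShortFinite b := by
  intro m r
  refine ⟨TT B (m + r) + 1, ?_⟩
  intro N hN a ha h0 i hi
  by_contra hcon
  have hblk : m + r ≤ blk i := by
    by_contra h1
    push Not at h1
    have := D.idx_le h1
    omega
  obtain ⟨j, hj⟩ : ∃ j, j = blk i := ⟨_, rfl⟩
  have h1 : ∑ i ∈ N.filter (fun i => blk i = j), a i * b i = 0 :=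
    D.sep_block (m := m) (fun i hi => (ha i hi).2) h0 (by omega)
  have hF' : ∀ i, i ∈ N.filter (fun i => blk i = j) → blk i = j :=
    fun i hi => (Finset.mem_filter.mp hi).2
  have h2 : Fr (j + 1) (j + 1) b (N.filter (fun i => blk i = j)) := by
    apply fr_pull (mulh_inj (NN_ne (B := B) j)) (D.injOn hF') (D.pull hF')
    exact Pool.Agent.PSR10.Fr_mono _ _ (D.image_sub hF') (hF j)
  have hle : ((N.filter (fun i => blk i = j)).card) ≤ j + 1 := by
    have h3 := Finset.card_le_card (Finset.filter_subset (fun i => blk i = j) N)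
    omega
  refine h2 _ (Finset.Subset.refl _) ⟨i, Finset.mem_filter.mpr ⟨hi, hj.symm⟩⟩ hle a ?_ ?_
  · intro x hx
    obtain ⟨h3, h4⟩ := ha x (Finset.mem_filter.mp hx).1
    refine ⟨h3, h4.trans ?_⟩
    have h5 : m ≤ j + 1 := by omega
    exact_mod_cast h5
  · rw [← h1]
    apply Finset.sum_congr rfl
    intro x _
    rw [smul_eq_mul]

lemma dir_not (D : Dir B b blk be)
    (hB : ∀ j, ¬ ∃ c : ℕ → Fin (j + 1), ∀ k, Indep cst ((B j).filter (fun x => c x = k))) :
    ¬ FinUnion b := by
  classical
  rintro ⟨K, c, hc⟩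
  obtain ⟨j, rfl⟩ : ∃ j, K = j + 1 := ⟨K - 1, by have := (c 0).2; omega⟩
  apply hB j
  have h1 : ∀ y, ∃ n, y ∈ B j → blk n = j ∧ be n = y := by
    intro y
    by_cases hy : y ∈ B j
    · obtain ⟨n, hn⟩ := D.surj j y hy
      exact ⟨n, fun _ => hn⟩
    · exact ⟨0, fun h => absurd h hy⟩
  choose n hn using h1
  refine ⟨fun y => c (n y), ?_⟩
  intro k
  have hF : ∀ i, i ∈ ((B j).filter (fun x => c (n x) = k)).image n → blk i = j := by
    intro i hi
    obtain ⟨y, hy, hyi⟩ := Finset.mem_image.mp hi
    rw [← hyi]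
    exact (hn y (Finset.mem_filter.mp hy).1).1
  have h2 : Indep b (((B j).filter (fun x => c (n x) = k)).image n) := by
    apply hc k
    intro i hi
    obtain ⟨y, hy, hyi⟩ := Finset.mem_image.mp hi
    rw [← hyi]
    exact (Finset.mem_filter.mp hy).2
  have h3 := (indep_image (mulh_inj (NN_ne (B := B) j)) (D.injOn hF) (D.pull hF)).mp h2
  have h4 : (((B j).filter (fun x => c (n x) = k)).image n).image be
      = (B j).filter (fun x => c (n x) = k) := by
    rw [Finset.image_image]
    ext x
    rw [Finset.mem_image]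
    constructor
    · rintro ⟨y, hy, hyx⟩
      have h5 : be (n y) = y := (hn y (Finset.mem_filter.mp hy).1).2
      have h6 : be (n y) = x := hyx
      rw [← h6, h5]
      exact hy
    · intro hx
      exact ⟨x, hx, (hn x (Finset.mem_filter.mp hx).1).2⟩
  rw [h4] at h3
  exact h3

lemma Dir.piece (D : Dir B b blk be) (j : ℕ) {d : ℝ} (hB : Prop' d cst (B j)) (F : Finset ℕ) :
    ∃ A : Finset ℕ, A ⊆ F.filter (fun i => blk i = j) ∧
      d * ((F.filter (fun i => blk i = j)).card : ℝ) ≤ (A.card : ℝ) ∧ Indep b A := by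
  classical
  have hF : ∀ i, i ∈ F.filter (fun i => blk i = j) → blk i = j :=
    fun i hi => (Finset.mem_filter.mp hi).2
  obtain ⟨A', hA', hc, hi⟩ := hB ((F.filter (fun i => blk i = j)).image be) (D.image_sub hF)
  have hs : (F.filter (fun i => blk i = j)).filter (fun i => be i ∈ A')
      ⊆ F.filter (fun i => blk i = j) := Finset.filter_subset _ _
  have hF2 : ∀ i, i ∈ (F.filter (fun i => blk i = j)).filter (fun i => be i ∈ A') → blk i = j :=
    fun i hi => hF i (hs hi)
  have e1 := image_filter_mem hA'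
  refine ⟨_, hs, ?_, ?_⟩
  · rw [Finset.card_image_of_injOn (D.injOn hF)] at hc
    have h2 : ((F.filter (fun i => blk i = j)).filter (fun i => be i ∈ A')).card = A'.card := by
      conv_rhs => rw [← e1]
      rw [Finset.card_image_of_injOn (D.injOn hF2)]
    rw [h2]
    exact hc
  · rw [indep_image (mulh_inj (NN_ne (B := B) j)) (D.injOn hF2) (D.pull hF2), e1]
    exact hi

lemma arith_full {e f a l h : ℝ} (he : 0 < e) (he1 : e < 1) (hf : 0 ≤ f) (h1 : f ≤ l + h)
    (h2 : (1 - e / 2) * h ≤ a) (h3 : l ≤ e / 2 * f) : (1 - e) * f ≤ a := by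
  have h4 : (1 - e / 2) * (f - l) ≤ (1 - e / 2) * h :=
    mul_le_mul_of_nonneg_left (by linarith) (by linarith)
  have h5 : (1 - e / 2) * (f - e / 2 * f) ≤ (1 - e / 2) * (f - l) :=
    mul_le_mul_of_nonneg_left (by linarith) (by linarith)
  have h6 : (1 - e / 2) * (f - e / 2 * f) = (1 - e) * f + e ^ 2 / 4 * f := by ring
  have h7 : 0 ≤ e ^ 2 / 4 * f := mul_nonneg (by positivity) hf
  linarith

lemma dir_full (D : Dir B b blk be) (hB : ∀ j : ℕ, Prop' (1 - 1 / ((j : ℝ) + 1)) cst (B j)) :
    AsymFull b := by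
  classical
  intro e he
  rcases le_or_gt 1 e with he1 | he1
  · refine ⟨0, fun F _ => ⟨∅, Finset.empty_subset _, ?_, ?_⟩⟩
    · rw [Finset.card_empty]
      push_cast
      exact mul_nonpos_of_nonpos_of_nonneg (by linarith) (Nat.cast_nonneg _)
    · intro s hs t ht _
      rw [Finset.subset_empty.mp hs, Finset.subset_empty.mp ht]
  · obtain ⟨J, hJ⟩ : ∃ J : ℕ, 2 / e ≤ (J : ℝ) := exists_nat_ge _
    obtain ⟨n0, hn0⟩ : ∃ n0 : ℕ, ((TT B J : ℝ) + 1) * (2 / e) ≤ (n0 : ℝ) := exists_nat_ge _
    refine ⟨n0, ?_⟩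
    intro F hF
    choose A hA hAc hAi using fun j => D.piece j (hB j) F
    let S : Finset ℕ := (F.image blk).filter (fun j => J ≤ j)
    have hS : ∀ j, j ∈ S → J ≤ j := fun j hj => (Finset.mem_filter.mp hj).2
    have hblkA : ∀ j i, i ∈ A j → blk i = j := fun j i hi => (Finset.mem_filter.mp (hA j hi)).2
    have hmemA : ∀ i, i ∈ S.biUnion A → i ∈ A (blk i) := by
      intro i hi
      obtain ⟨j, -, hj⟩ := Finset.mem_biUnion.mp hi
      rw [hblkA j i hj]
      exact hj
    refine ⟨S.biUnion A, ?_, ?_, ?_⟩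
    · intro i hi
      exact (Finset.mem_filter.mp (hA _ (hmemA i hi))).1
    · have c1 : (S.biUnion A).card = ∑ j ∈ S, (A j).card := by
        apply Finset.card_biUnion
        intro i _ j _ hij
        show Disjoint (A i) (A j)
        rw [Finset.disjoint_left]
        intro x hx hy
        exact hij ((hblkA i x hx).symm.trans (hblkA j x hy))
      have c2 : F.card ≤ (F.filter (fun i => blk i < J)).card
          + ∑ j ∈ S, (F.filter (fun i => blk i = j)).card := by
        have h1 : F ⊆ F.filter (fun i => blk i < J) ∪ S.biUnion (fun j => F.filter (fun i => blk i = j)) := by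
          intro i hi
          by_cases h2 : blk i < J
          · exact Finset.mem_union_left _ (Finset.mem_filter.mpr ⟨hi, h2⟩)
          · apply Finset.mem_union_right
            refine Finset.mem_biUnion.mpr ⟨blk i, ?_, Finset.mem_filter.mpr ⟨hi, rfl⟩⟩
            exact Finset.mem_filter.mpr ⟨Finset.mem_image_of_mem _ hi, not_lt.mp h2⟩
        refine (Finset.card_le_card h1).trans ((Finset.card_union_le _ _).trans ?_)
        exact Nat.add_le_add_left Finset.card_biUnion_le _
      have c3 : (F.filter (fun i => blk i < J)).card ≤ TT B J + 1 := by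
        have h1 : F.filter (fun i => blk i < J) ⊆ range (TT B J + 1) := by
          intro i hi
          have h2 := D.idx_le (Finset.mem_filter.mp hi).2
          exact Finset.mem_range.mpr (by omega)
        have h2 := Finset.card_le_card h1
        rw [Finset.card_range] at h2
        exact h2
      have c4 : (1 - e / 2) * ((∑ j ∈ S, (F.filter (fun i => blk i = j)).card : ℕ) : ℝ)
          ≤ (((S.biUnion A).card : ℕ) : ℝ) := by
        rw [c1]
        push_cast
        rw [Finset.mul_sum]
        apply Finset.sum_le_sum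
        intro j hj
        refine le_trans ?_ (hAc j)
        apply mul_le_mul_of_nonneg_right _ (Nat.cast_nonneg _)
        have h1 : (J : ℝ) ≤ (j : ℝ) := by exact_mod_cast hS j hj
        have h2 : 1 / ((j : ℝ) + 1) ≤ e / 2 := by
          rw [div_le_iff₀ (by positivity)]
          have h3 : 2 / e ≤ (j : ℝ) + 1 := by linarith
          have h4 : e / 2 * (2 / e) = 1 := by field_simp
          calc (1 : ℝ) = e / 2 * (2 / e) := h4.symm
            _ ≤ e / 2 * ((j : ℝ) + 1) := mul_le_mul_of_nonneg_left h3 (by linarith)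
        linarith
      have c5 : (((F.filter (fun i => blk i < J)).card : ℕ) : ℝ) ≤ e / 2 * (F.card : ℝ) := by
        have h1 : (((F.filter (fun i => blk i < J)).card : ℕ) : ℝ) ≤ (TT B J : ℝ) + 1 := by
          exact_mod_cast c3
        have h2 : ((TT B J : ℝ) + 1) * (2 / e) ≤ (F.card : ℝ) :=
          hn0.trans (by exact_mod_cast hF)
        have h3 : e / 2 * (((TT B J : ℝ) + 1) * (2 / e)) = (TT B J : ℝ) + 1 := by
          field_simp
        have h4 := mul_le_mul_of_nonneg_left h2 (show (0 : ℝ) ≤ e / 2 by linarith)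
        linarith
      have c2' : (F.card : ℝ) ≤ (((F.filter (fun i => blk i < J)).card : ℕ) : ℝ)
          + ((∑ j ∈ S, (F.filter (fun i => blk i = j)).card : ℕ) : ℝ) := by
        exact_mod_cast c2
      exact arith_full he he1 (Nat.cast_nonneg _) c2' c4 c5
    · intro s hs t ht hst
      have key : ∀ j, s.filter (fun i => blk i = j) = t.filter (fun i => blk i = j) := by
        intro j
        apply hAi j
        · intro i hi
          obtain ⟨h1, h2⟩ := Finset.mem_filter.mp hi
          rw [← h2]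
          exact hmemA i (hs h1)
        · intro i hi
          obtain ⟨h1, h2⟩ := Finset.mem_filter.mp hi
          rw [← h2]
          exact hmemA i (ht h1)
        · exact D.sep_one hst j
      ext i
      constructor
      · intro hi
        have h1 : i ∈ s.filter (fun x => blk x = blk i) := Finset.mem_filter.mpr ⟨hi, rfl⟩
        rw [key] at h1
        exact (Finset.mem_filter.mp h1).1
      · intro hi
        have h1 : i ∈ t.filter (fun x => blk x = blk i) := Finset.mem_filter.mpr ⟨hi, rfl⟩
        rw [← key] at h1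
        exact (Finset.mem_filter.mp h1).1

/-- The normal form, for `δ ≤ 1`. -/
theorem normal_aux (H : ∀ b : ℕ → ℤ, StrictMono b → (∀ n, 0 < b n) → AsymFull b → ShortFinite b →
    FinUnion b) {δ : ℝ} (hδ : 0 < δ) (hδ1 : δ ≤ 1) : PisierAt δ := by
  classical
  by_contra hno
  choose B hpos hP hF hN using exists_piece hδ hδ1 hno
  have hne : ∀ j, (B j).Nonempty := by
    intro j
    rw [Finset.nonempty_iff_ne_empty]
    intro h0
    apply hN j
    refine ⟨fun _ => 0, ?_⟩
    intro k
    rw [h0, Finset.filter_empty]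
    intro s hs t ht _
    rw [Finset.subset_empty.mp hs, Finset.subset_empty.mp ht]
  obtain ⟨b, blk, be, D⟩ := exists_dir hpos hne
  exact dir_not D hN (H b D.mono D.pos (dir_full D hP) (dir_short D hF))

/-- The statement of the problem follows from its restriction to the normal form. -/
theorem normal (H : ∀ b : ℕ → ℤ, StrictMono b → (∀ n, 0 < b n) → AsymFull b → ShortFinite b →
    FinUnion b) {δ : ℝ} (hδ : 0 < δ) : PisierAt δ := by
  obtain ⟨K, hK⟩ := normal_aux H (lt_min hδ one_pos) (min_le_right δ 1)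
  refine ⟨K, fun b hb hbδ => hK b hb ?_⟩
  intro F
  obtain ⟨A, h1, h2, h3⟩ := hbδ F
  exact ⟨A, h1, le_trans (mul_le_mul_of_nonneg_right (min_le_left _ _) (Nat.cast_nonneg _)) h2, h3⟩

/-- The converse. -/
theorem normal_conv (H : ∀ δ : ℝ, 0 < δ → PisierAt δ) {b : ℕ → ℤ} (hb : StrictMono b)
    (hpos : ∀ n, 0 < b n) (hfull : AsymFull b) : FinUnion b := by
  obtain ⟨n0, hn0⟩ := hfull (1 / 2) (by norm_num)
  obtain ⟨K, hK⟩ := H (min (1 / 2) (1 / ((n0 : ℝ) + 1))) (lt_min (by norm_num) (by positivity))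
  refine ⟨K, hK b hb ?_⟩
  intro F
  rcases le_or_gt n0 F.card with h1 | h1
  · obtain ⟨A, hA, hAc, hAi⟩ := hn0 F h1
    refine ⟨A, hA, le_trans ?_ hAc, hAi⟩
    apply mul_le_mul_of_nonneg_right _ (Nat.cast_nonneg _)
    exact (min_le_left _ _).trans (by norm_num)
  · rcases Finset.eq_empty_or_nonempty F with h0 | ⟨x, hx⟩
    · refine ⟨∅, Finset.empty_subset _, ?_, ?_⟩
      · rw [h0, Finset.card_empty]; simp
      · intro s hs t ht _
        rw [Finset.subset_empty.mp hs, Finset.subset_empty.mp ht]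
    · refine ⟨{x}, Finset.singleton_subset_iff.mpr hx, ?_, ?_⟩
      · rw [Finset.card_singleton]
        push_cast
        have h2 : (F.card : ℝ) ≤ (n0 : ℝ) + 1 := by
          have : (F.card : ℝ) < (n0 : ℝ) := by exact_mod_cast h1
          linarith
        calc min (1 / 2) (1 / ((n0 : ℝ) + 1)) * (F.card : ℝ)
            ≤ 1 / ((n0 : ℝ) + 1) * ((n0 : ℝ) + 1) :=
              mul_le_mul (min_le_right _ _) h2 (Nat.cast_nonneg _) (by positivity)
          _ = 1 := by field_simp
      · intro s hs t ht hst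
        rcases Finset.subset_singleton_iff.mp hs with h2 | h2 <;>
          rcases Finset.subset_singleton_iff.mp ht with h3 | h3
        · rw [h2, h3]
        · rw [h2, h3, Finset.sum_empty, Finset.sum_singleton] at hst
          exact absurd hst (hpos x).ne
        · rw [h2, h3, Finset.sum_empty, Finset.sum_singleton] at hst
          exact absurd hst (hpos x).ne'
        · rw [h2, h3]

end NI12
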