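import Pool.Agent.PSR10.Main
import Pool.Agent.PSR10.Short

/-!
# Finite pieces of a counterexample

If the statement of the problem fails for some `δ`, then there are finite sets of positive integers
which are nearly independent, have no short relations and need many classes.
-/

set_option autoImplicit false
set_option linter.unusedSectionVars false

namespace NI12

open Finset
open Pool.Agent.PSR10 (Indep Fr Prop' PisierAt)

/-- The sequence of all naturals, as integers. -/
def cst : ℕ → ℤ := fun x => (x : ℤ)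

section Transfer

variable {ι κ G H : Type*} [DecidableEq ι] [DecidableEq κ] [AddCommGroup G] [AddCommGroup H]

lemma image_filter_mem {g : ι → κ} {s : Finset ι} {t : Finset κ} (ht : t ⊆ s.image g) :
    (s.filter (fun i => g i ∈ t)).image g = t := by
  ext x
  rw [Finset.mem_image]
  constructor
  · rintro ⟨i, hi, rfl⟩
    exact (Finset.mem_filter.mp hi).2
  · intro hx
    obtain ⟨i, hi, hix⟩ := Finset.mem_image.mp (ht hx)
    exact ⟨i, Finset.mem_filter.mpr ⟨hi, by rw [hix]; exact hx⟩, hix⟩

lemma sum_pull {b : ι → G} {b' : κ → H} {g : ι → κ} {φ : H →+ G} {s t : Finset ι}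
    (hg : Set.InjOn g s) (hb : ∀ i, i ∈ s → b i = φ (b' (g i))) (hts : t ⊆ s) (c : κ → ℤ) :
    ∑ i ∈ t, c (g i) • b i = φ (∑ x ∈ t.image g, c x • b' x) := by
  rw [Finset.sum_image (fun x hx y hy h => hg (hts hx) (hts hy) h), map_sum]
  apply Finset.sum_congr rfl
  intro i hi
  rw [hb i (hts hi), map_zsmul]

lemma sum_pull_one {b : ι → G} {b' : κ → H} {g : ι → κ} {φ : H →+ G} {s t : Finset ι}
    (hg : Set.InjOn g s) (hb : ∀ i, i ∈ s → b i = φ (b' (g i))) (hts : t ⊆ s) :
    ∑ i ∈ t, b i = φ (∑ x ∈ t.image g, b' x) := by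
  rw [Finset.sum_image (fun x hx y hy h => hg (hts hx) (hts hy) h), map_sum]
  exact Finset.sum_congr rfl (fun i hi => hb i (hts hi))

lemma indep_image {b : ι → G} {b' : κ → H} {g : ι → κ} {φ : H →+ G}
    (hφ : Function.Injective φ) {s : Finset ι}
    (hg : Set.InjOn g s) (hb : ∀ i, i ∈ s → b i = φ (b' (g i))) :
    Indep b s ↔ Indep b' (s.image g) := by
  constructor
  · intro h t1 h1 t2 h2 heq
    have e1 := image_filter_mem h1
    have e2 := image_filter_mem h2
    have h3 := h (s.filter (fun i => g i ∈ t1)) (Finset.filter_subset _ _)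
      (s.filter (fun i => g i ∈ t2)) (Finset.filter_subset _ _) (by
        rw [sum_pull_one hg hb (Finset.filter_subset _ _),
          sum_pull_one hg hb (Finset.filter_subset _ _), e1, e2, heq])
    rw [← e1, ← e2, h3]
  · intro h s1 h1 s2 h2 heq
    rw [sum_pull_one hg hb h1, sum_pull_one hg hb h2] at heq
    have h3 := h (s1.image g) (Finset.image_subset_image h1) (s2.image g)
      (Finset.image_subset_image h2) (hφ heq)
    have key : ∀ u1 u2 : Finset ι, u1 ⊆ s → u2 ⊆ s → u1.image g = u2.image g → u1 ⊆ u2 := by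
      intro u1 u2 hu1 hu2 hu x hx
      have h4 : g x ∈ u2.image g := by rw [← hu]; exact Finset.mem_image_of_mem g hx
      obtain ⟨y, hy, hyx⟩ := Finset.mem_image.mp h4
      rw [← hg (hu2 hy) (hu1 hx) hyx]
      exact hy
    exact Finset.Subset.antisymm (key s1 s2 h1 h2 h3) (key s2 s1 h2 h1 h3.symm)

lemma fr_image {m r : ℕ} {b : ι → G} {b' : κ → H} {g : ι → κ} {φ : H →+ G} {s : Finset ι}
    (hg : Set.InjOn g s) (hb : ∀ i, i ∈ s → b i = φ (b' (g i))) (h : Fr m r b s) :
    Fr m r b' (s.image g) := by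
  intro N hN hne hcard c hc h0
  have e1 := image_filter_mem hN
  have hs : s.filter (fun i => g i ∈ N) ⊆ s := Finset.filter_subset _ _
  have hcard2 : (s.filter (fun i => g i ∈ N)).card = N.card := by
    conv_rhs => rw [← e1]
    rw [Finset.card_image_of_injOn (fun x hx y hy hxy => hg (hs hx) (hs hy) hxy)]
  refine h _ hs ?_ (by rw [hcard2]; exact hcard) (fun i => c (g i)) ?_ ?_
  · rw [← Finset.card_pos, hcard2, Finset.card_pos]; exact hne
  · intro i hi
    exact hc (g i) (Finset.mem_filter.mp hi).2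
  · rw [sum_pull hg hb hs c, e1, h0, map_zero]

lemma prop_image {δ : ℝ} {b : ι → G} {b' : κ → H} {g : ι → κ} {φ : H →+ G}
    (hφ : Function.Injective φ) {s : Finset ι}
    (hg : Set.InjOn g s) (hb : ∀ i, i ∈ s → b i = φ (b' (g i))) (h : Prop' δ b s) :
    Prop' δ b' (s.image g) := by
  intro F hF
  have e1 := image_filter_mem hF
  have hs : s.filter (fun i => g i ∈ F) ⊆ s := Finset.filter_subset _ _
  have hcard2 : (s.filter (fun i => g i ∈ F)).card = F.card := by
    conv_rhs => rw [← e1]
    rw [Finset.card_image_of_injOn (fun x hx y hy hxy => hg (hs hx) (hs hy) hxy)]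
  obtain ⟨A, hA, hAc, hAi⟩ := h _ hs
  have hAs : A ⊆ s := hA.trans hs
  refine ⟨A.image g, ?_, ?_, ?_⟩
  · rw [← e1]; exact Finset.image_subset_image hA
  · rw [Finset.card_image_of_injOn (fun x hx y hy hxy => hg (hAs hx) (hAs hy) hxy)]
    rw [hcard2] at hAc
    exact hAc
  · exact (indep_image hφ (fun x hx y hy hxy => hg (hAs hx) (hAs hy) hxy)
      (fun i hi => hb i (hAs hi))).mp hAi

end Transfer

/-- Multiplication by an integer. -/
def mulh (N : ℤ) : ℤ →+ ℤ := AddMonoidHom.mulLeft N

lemma mulh_apply (N x : ℤ) : mulh N x = N * x := rfl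

lemma mulh_inj {N : ℤ} (hN : N ≠ 0) : Function.Injective (mulh N) := by
  intro x y h
  exact mul_left_cancel₀ hN h

/-- Finite pieces. -/
lemma exists_piece {δ : ℝ} (hδ : 0 < δ) (hδ1 : δ ≤ 1) (hno : ¬ PisierAt δ) (j : ℕ) :
    ∃ B : Finset ℕ, (∀ x, x ∈ B → 0 < x) ∧ Prop' (1 - 1 / ((j : ℝ) + 1)) cst B ∧
      Fr (j + 1) (j + 1) cst B ∧
      ¬ ∃ c : ℕ → Fin (j + 1), ∀ k, Indep cst (B.filter (fun x => c x = k)) := by
  classical
  by_contra hcon
  have hcon2 : ∀ B : Finset ℕ, (∀ x, x ∈ B → 0 < x) → Prop' (1 - 1 / ((j : ℝ) + 1)) cst B →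
      Fr (j + 1) (j + 1) cst B →
      ∃ c : ℕ → Fin (j + 1), ∀ k, Indep cst (B.filter (fun x => c x = k)) := by
    intro B h1 h2 h3
    by_contra h4
    exact hcon ⟨B, h1, h2, h3, h4⟩
  apply hno
  have he0 : (0 : ℝ) < 1 / ((j : ℝ) + 1) := by positivity
  have he1 : 1 / ((j : ℝ) + 1) ≤ 1 := by
    rw [div_le_one (by positivity)]
    have : (0 : ℝ) ≤ (j : ℝ) := Nat.cast_nonneg _
    linarith
  obtain ⟨m, KA, hm, hKA, -⟩ := Pool.Agent.PSR10.exists_K hδ hδ1 he0 he1
  obtain ⟨KS, hKS⟩ : ∃ KS : ℕ, KS = ⌈44 * (((j + 1 : ℕ) : ℝ) + Real.log ((j + 1 : ℕ) : ℝ)) / δ⌉₊ :=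
    ⟨_, rfl⟩
  refine ⟨Fintype.card ((Fin KS × Fin KA × Bool) × Fin (j + 1)), ?_⟩
  intro b hb hbδ
  obtain ⟨fA, hfA⟩ := Pool.Agent.PSR10.amplify hδ he0 he1 hm hKA b hbδ
  obtain ⟨fS', hfS'⟩ := Pool.Agent.PSR10.short_cover hδ hδ1 (m := j + 1) (s := j + 1)
    (by omega) (by omega) b hbδ
  obtain ⟨fS, hfS⟩ : ∃ fS : ℕ → Fin KS, ∀ i, ∀ F : Finset ℕ, (∀ x ∈ F, fS x = i) →
      Fr (j + 1) (j + 1) b F := by
    subst hKS
    exact ⟨fS', hfS'⟩
  let e := Fintype.equivFin ((Fin KS × Fin KA × Bool) × Fin (j + 1))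
  let cl : ℕ → Fin KS × Fin KA × Bool := fun x => (fS x, fA x, decide (0 < b x))
  obtain ⟨f, hf⟩ := Pool.Agent.PSR10.compactness
    (K := Fintype.card ((Fin KS × Fin KA × Bool) × Fin (j + 1)))
    (fun F => Indep b F) (fun A B h1 h2 => h2.mono h1) (by
      intro n
      have hne0 : ∀ x, b x ≠ 0 := by
        intro x h0
        obtain ⟨A, hA, hAc, hAi⟩ := hbδ {x}
        rw [Finset.card_singleton] at hAc
        have h1 : A.Nonempty := by
          rw [← Finset.card_pos]
          by_contra h2
          have h3 : A.card = 0 := by omega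
          rw [h3] at hAc
          push_cast at hAc
          linarith
        obtain ⟨y, hy⟩ := h1
        have hyx : y = x := Finset.mem_singleton.mp (hA hy)
        have h2 := hAi {y} (Finset.singleton_subset_iff.mpr hy) ∅ (Finset.empty_subset _)
          (by rw [Finset.sum_singleton, Finset.sum_empty, hyx]; exact h0)
        exact Finset.singleton_ne_empty y h2
      let V : Fin KS × Fin KA × Bool → Finset ℕ := fun p => (range n).filter (fun x => cl x = p)
      have hV : ∀ p, ∀ x, x ∈ V p → cl x = p := fun p x hx => (Finset.mem_filter.mp hx).2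
      let sg : Bool → ℤ := fun t => if t then 1 else -1
      have hsg : ∀ t, sg t ≠ 0 := by
        intro t
        cases t
        · show (-1 : ℤ) ≠ 0
          norm_num
        · show (1 : ℤ) ≠ 0
          norm_num
      have hval : ∀ p, ∀ x, x ∈ V p → b x = mulh (sg p.2.2) (cst ((b x).natAbs)) := by
        intro p x hx
        have h1 : decide (0 < b x) = p.2.2 := congrArg (fun q => q.2.2) (hV p x hx)
        rw [mulh_apply]
        show b x = sg p.2.2 * (((b x).natAbs : ℕ) : ℤ)
        rw [← h1]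
        by_cases h2 : 0 < b x
        · have h3 : decide (0 < b x) = true := decide_eq_true h2
          rw [h3]
          show b x = 1 * _
          rw [one_mul, Int.natAbs_of_nonneg h2.le]
        · have h3 : decide (0 < b x) = false := decide_eq_false h2
          rw [h3]
          show b x = (-1) * _
          have h4 : b x ≤ 0 := not_lt.mp h2
          rw [Int.ofNat_natAbs_of_nonpos h4]
          ring
      have hinj : ∀ p, Set.InjOn (fun x => (b x).natAbs) (V p : Set ℕ) := by
        intro p x hx y hy hxy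
        have h1 := hval p x hx
        have h2 := hval p y hy
        have h3 : (b x).natAbs = (b y).natAbs := hxy
        rw [h3, ← h2] at h1
        exact hb.injective h1
      have hc : ∀ p, ∃ c : ℕ → Fin (j + 1), ∀ k,
          Indep cst (((V p).image (fun x => (b x).natAbs)).filter (fun x => c x = k)) := by
        intro p
        apply hcon2
        · intro x hx
          obtain ⟨y, -, hy⟩ := Finset.mem_image.mp hx
          rw [← hy]
          exact Int.natAbs_pos.mpr (hne0 y)
        · apply prop_image (mulh_inj (hsg p.2.2)) (hinj p) (hval p)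
          intro F hF
          exact hfA p.2.1 F (fun x hx => congrArg (fun q => q.2.1) (hV p x (hF hx)))
        · apply fr_image (hinj p) (hval p)
          exact hfS p.1 (V p) (fun x hx => congrArg (fun q => q.1) (hV p x hx))
      choose c hc using hc
      refine ⟨fun x => e (cl x, c (cl x) ((b x).natAbs)), ?_⟩
      intro i
      obtain ⟨⟨p, k⟩, hpk⟩ : ∃ q, e q = i := ⟨e.symm i, e.apply_symm_apply i⟩
      have hW : ∀ x, x ∈ (range n).filter (fun x => e (cl x, c (cl x) ((b x).natAbs)) = i) →
          x ∈ V p ∧ c p ((b x).natAbs) = k := by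
        intro x hx
        obtain ⟨h1, h2⟩ := Finset.mem_filter.mp hx
        rw [← hpk] at h2
        have h3 := e.injective h2
        have h4 : cl x = p := congrArg Prod.fst h3
        have h5 : c (cl x) ((b x).natAbs) = k := congrArg Prod.snd h3
        rw [h4] at h5
        exact ⟨Finset.mem_filter.mpr ⟨h1, h4⟩, h5⟩
      have hsub : (range n).filter (fun x => e (cl x, c (cl x) ((b x).natAbs)) = i) ⊆ V p :=
        fun x hx => (hW x hx).1
      refine (indep_image (mulh_inj (hsg p.2.2)) (g := fun x => (b x).natAbs)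
        (fun x hx y hy hxy => hinj p (hsub hx) (hsub hy) hxy)
        (fun x hx => hval p x (hsub hx))).mpr ?_
      apply (hc p k).mono
      intro y hy
      obtain ⟨x, hx, hxy⟩ := Finset.mem_image.mp hy
      rw [← hxy]
      exact Finset.mem_filter.mpr ⟨Finset.mem_image_of_mem _ (hW x hx).1, (hW x hx).2⟩)
  exact ⟨f, hf⟩

end NI12
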