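import Pool.Agent.NI12.Pieces

/-!
# A widely separated union of finite sets of positive integers
-/

set_option autoImplicit false

namespace NI12

open Finset
open Pool.Agent.PSR10 (Indep Fr Prop' PisierAt)

/-- The dilation of the block and the total of the blocks before it. -/
def st (B : ℕ → Finset ℕ) : ℕ → ℕ × ℕ
  | 0 => (1, 0)
  | (j + 1) => ((st B j).1 * ((j + 2) * ((st B j).2 + (st B j).1 * ∑ x ∈ B j, x) + 1),
      (st B j).2 + (st B j).1 * ∑ x ∈ B j, x)

/-- The dilation of the block `j`. -/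
def NN (B : ℕ → Finset ℕ) (j : ℕ) : ℕ := (st B j).1

/-- The total of the blocks before the block `j`. -/
def TT (B : ℕ → Finset ℕ) (j : ℕ) : ℕ := (st B j).2

variable {B : ℕ → Finset ℕ}

lemma TT_zero : TT B 0 = 0 := rfl

lemma TT_succ (j : ℕ) : TT B (j + 1) = TT B j + NN B j * ∑ x ∈ B j, x := rfl

lemma NN_succ (j : ℕ) : NN B (j + 1) = NN B j * ((j + 2) * TT B (j + 1) + 1) := rfl

lemma NN_pos (j : ℕ) : 0 < NN B j := by
  induction j with
  | zero => exact Nat.one_pos
  | succ j ih => rw [NN_succ]; exact Nat.mul_pos ih (Nat.succ_pos _)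

lemma NN_dvd {i j : ℕ} (hij : i ≤ j) : NN B i ∣ NN B j := by
  induction j, hij using Nat.le_induction with
  | base => exact dvd_rfl
  | succ n _ ih => rw [NN_succ]; exact ih.mul_right _

lemma TT_mono {i j : ℕ} (hij : i ≤ j) : TT B i ≤ TT B j := by
  induction j, hij using Nat.le_induction with
  | base => exact le_rfl
  | succ n _ ih => rw [TT_succ]; exact ih.trans (Nat.le_add_right _ _)

lemma TT_lt (j : ℕ) : (j + 1) * TT B j < NN B j := by
  cases j with
  | zero => rw [TT_zero, mul_zero]; exact NN_pos 0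
  | succ j =>
    rw [NN_succ]
    calc (j + 1 + 1) * TT B (j + 1) < (j + 2) * TT B (j + 1) + 1 := Nat.lt_succ_self _
      _ = 1 * ((j + 2) * TT B (j + 1) + 1) := (one_mul _).symm
      _ ≤ NN B j * ((j + 2) * TT B (j + 1) + 1) := Nat.mul_le_mul_right _ (NN_pos j)

lemma elt_le {j y : ℕ} (hy : y ∈ B j) : NN B j * y ≤ TT B (j + 1) := by
  rw [TT_succ]
  have h1 : y ≤ ∑ x ∈ B j, x := Finset.single_le_sum (f := fun x => x) (fun _ _ => Nat.zero_le _) hy
  exact (Nat.mul_le_mul_left _ h1).trans (Nat.le_add_left _ _)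

/-- The union of the dilated blocks, in increasing order. -/
structure Dir (B : ℕ → Finset ℕ) (b : ℕ → ℤ) (blk be : ℕ → ℕ) : Prop where
  val : ∀ n, b n = (NN B (blk n) : ℤ) * (be n : ℤ)
  mem : ∀ n, be n ∈ B (blk n)
  surj : ∀ j y, y ∈ B j → ∃ n, blk n = j ∧ be n = y
  mono : StrictMono b
  pos : ∀ n, 0 < b n

lemma block_unique (hpos : ∀ j x, x ∈ B j → 0 < x) {i j y z : ℕ} (hy : y ∈ B i) (hz : z ∈ B j)
    (h : NN B i * y = NN B j * z) : i = j := by
  have key : ∀ i j y z : ℕ, y ∈ B i → z ∈ B j → NN B i * y = NN B j * z → ¬ i < j := by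
    intro i j y z hy hz h hij
    have h1 : NN B i * y ≤ TT B j := (elt_le hy).trans (TT_mono hij)
    have h2 : TT B j ≤ (j + 1) * TT B j := Nat.le_mul_of_pos_left _ (Nat.succ_pos _)
    have h3 := TT_lt (B := B) j
    have h4 : NN B j ≤ NN B j * z := Nat.le_mul_of_pos_right _ (hpos j z hz)
    omega
  have h1 := key i j y z hy hz h
  have h2 := key j i z y hz hy h.symm
  omega

lemma exists_dir (hpos : ∀ j x, x ∈ B j → 0 < x) (hne : ∀ j, (B j).Nonempty) :
    ∃ (b : ℕ → ℤ) (blk be : ℕ → ℕ), Dir B b blk be := by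
  classical
  let p : ℕ → Prop := fun x => ∃ j y, y ∈ B j ∧ x = NN B j * y
  have hinf : (Set.ofPred p).Infinite := by
    choose y hy using hne
    apply Set.infinite_of_injective_forall_mem (f := fun j => NN B j * y j)
    · intro i j hij
      exact block_unique hpos (hy i) (hy j) hij
    · intro j
      exact ⟨j, y j, hy j, rfl⟩
  have hp : ∀ n, ∃ j y, y ∈ B j ∧ Nat.nth p n = NN B j * y := fun n =>
    Nat.nth_mem_of_infinite hinf n
  choose blk be hbe hval using hp
  refine ⟨fun n => ((Nat.nth p n : ℕ) : ℤ), blk, be, ?_, hbe, ?_, ?_, ?_⟩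
  · intro n
    show ((Nat.nth p n : ℕ) : ℤ) = _
    rw [hval n]
    push_cast
    ring
  · intro j y hy
    have h1 : NN B j * y ∈ Set.range (Nat.nth p) := by
      rw [Nat.range_nth_of_infinite hinf]
      exact ⟨j, y, hy, rfl⟩
    obtain ⟨n, hn⟩ := h1
    have h2 : NN B (blk n) * be n = NN B j * y := by rw [← hval n, hn]
    have h3 : blk n = j := block_unique hpos (hbe n) hy h2
    refine ⟨n, h3, ?_⟩
    rw [h3] at h2
    exact Nat.eq_of_mul_eq_mul_left (NN_pos j) h2
  · intro i j hij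
    have h1 := Nat.nth_strictMono hinf hij
    show ((Nat.nth p i : ℕ) : ℤ) < ((Nat.nth p j : ℕ) : ℤ)
    exact_mod_cast h1
  · intro n
    show (0 : ℤ) < ((Nat.nth p n : ℕ) : ℤ)
    rw [hval n]
    exact_mod_cast Nat.mul_pos (NN_pos _) (hpos _ _ (hbe n))

variable {b : ℕ → ℤ} {blk be : ℕ → ℕ}

lemma Dir.injOn (D : Dir B b blk be) {j : ℕ} {F : Finset ℕ} (hF : ∀ i, i ∈ F → blk i = j) :
    Set.InjOn be (F : Set ℕ) := by
  intro x hx y hy hxy
  apply D.mono.injective
  rw [D.val x, D.val y, hF x hx, hF y hy, hxy]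

lemma Dir.image_sub (D : Dir B b blk be) {j : ℕ} {F : Finset ℕ} (hF : ∀ i, i ∈ F → blk i = j) :
    F.image be ⊆ B j := by
  intro x hx
  obtain ⟨i, hi, hix⟩ := Finset.mem_image.mp hx
  rw [← hix, ← hF i hi]
  exact D.mem i

lemma Dir.pull (D : Dir B b blk be) {j : ℕ} {F : Finset ℕ} (hF : ∀ i, i ∈ F → blk i = j) :
    ∀ i, i ∈ F → b i = mulh (NN B j) (cst (be i)) := by
  intro i hi
  rw [mulh_apply, D.val i, hF i hi]
  rfl

lemma NN_ne (j : ℕ) : ((NN B j : ℕ) : ℤ) ≠ 0 := by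
  have := NN_pos (B := B) j
  exact_mod_cast this.ne'

lemma Dir.block_le (D : Dir B b blk be) (F : Finset ℕ) (j : ℕ) :
    ∑ i ∈ F.filter (fun i => blk i = j), b i ≤ ((NN B j * ∑ x ∈ B j, x : ℕ) : ℤ) := by
  have hF : ∀ i, i ∈ F.filter (fun i => blk i = j) → blk i = j :=
    fun i hi => (Finset.mem_filter.mp hi).2
  have h1 : ∑ i ∈ F.filter (fun i => blk i = j), b i
      = (NN B j : ℤ) * ((∑ x ∈ (F.filter (fun i => blk i = j)).image be, x : ℕ) : ℤ) := by
    rw [Finset.sum_image (D.injOn hF)]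
    push_cast
    rw [Finset.mul_sum]
    apply Finset.sum_congr rfl
    intro i hi
    rw [D.val i, hF i hi]
  have h2 : ∑ x ∈ (F.filter (fun i => blk i = j)).image be, x ≤ ∑ x ∈ B j, x :=
    Finset.sum_le_sum_of_subset (D.image_sub hF)
  rw [h1, Nat.cast_mul]
  exact mul_le_mul_of_nonneg_left ((Nat.cast_le (α := ℤ)).mpr h2) (Int.natCast_nonneg _)

lemma filter_lt_succ (F : Finset ℕ) (f : ℕ → ℤ) (blk : ℕ → ℕ) (j : ℕ) :
    ∑ i ∈ F.filter (fun i => blk i < j + 1), f i
      = ∑ i ∈ F.filter (fun i => blk i < j), f i + ∑ i ∈ F.filter (fun i => blk i = j), f i := by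
  rw [← Finset.sum_union]
  · congr 1
    ext i
    simp only [Finset.mem_filter, Finset.mem_union]
    constructor
    · rintro ⟨h1, h2⟩
      rcases Nat.lt_or_ge (blk i) j with h3 | h3
      · exact Or.inl ⟨h1, h3⟩
      · exact Or.inr ⟨h1, by omega⟩
    · rintro (⟨h1, h2⟩ | ⟨h1, h2⟩)
      · exact ⟨h1, by omega⟩
      · exact ⟨h1, by omega⟩
  · rw [Finset.disjoint_left]
    intro i h1 h2
    have h3 := (Finset.mem_filter.mp h1).2
    have h4 := (Finset.mem_filter.mp h2).2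
    omega

lemma Dir.low_le (D : Dir B b blk be) (F : Finset ℕ) (j : ℕ) :
    ∑ i ∈ F.filter (fun i => blk i < j), b i ≤ (TT B j : ℤ) := by
  induction j with
  | zero =>
    have h1 : F.filter (fun i => blk i < 0) = ∅ := by
      apply Finset.filter_false_of_mem
      intro i _
      exact Nat.not_lt_zero _
    rw [h1, Finset.sum_empty]
    exact_mod_cast Nat.zero_le _
  | succ j ih =>
    rw [filter_lt_succ, TT_succ]
    have h1 := D.block_le F j
    push_cast at h1 ⊢
    linarith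

lemma Dir.sep (D : Dir B b blk be) {a : ℕ → ℤ} {F : Finset ℕ} {m j : ℕ}
    (ha : ∀ i, i ∈ F → |a i| ≤ (m : ℤ)) (h0 : ∑ i ∈ F, a i * b i = 0) (hj : m ≤ j + 1) :
    ∑ i ∈ F.filter (fun i => blk i < j), a i * b i = 0 := by
  have h1 := Finset.sum_filter_add_sum_filter_not F (fun i => blk i < j) (fun i => a i * b i)
  rw [h0] at h1
  have h2 : (NN B j : ℤ) ∣ ∑ i ∈ F.filter (fun i => ¬ blk i < j), a i * b i := by
    apply Finset.dvd_sum
    intro i hi
    have h3 : j ≤ blk i := not_lt.mp (Finset.mem_filter.mp hi).2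
    have h4 : (NN B j : ℤ) ∣ (NN B (blk i) : ℤ) := Int.natCast_dvd_natCast.mpr (NN_dvd h3)
    rw [D.val i]
    exact (h4.mul_right _).mul_left _
  have h3 : (NN B j : ℤ) ∣ ∑ i ∈ F.filter (fun i => blk i < j), a i * b i := by
    have h4 : ∑ i ∈ F.filter (fun i => blk i < j), a i * b i
        = - ∑ i ∈ F.filter (fun i => ¬ blk i < j), a i * b i := by linarith
    rw [h4]
    exact (dvd_neg).mpr h2
  apply Int.eq_zero_of_abs_lt_dvd h3
  calc |∑ i ∈ F.filter (fun i => blk i < j), a i * b i|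
      ≤ ∑ i ∈ F.filter (fun i => blk i < j), |a i * b i| := Finset.abs_sum_le_sum_abs _ _
    _ ≤ ∑ i ∈ F.filter (fun i => blk i < j), (m : ℤ) * b i := by
        apply Finset.sum_le_sum
        intro i hi
        rw [abs_mul, abs_of_pos (D.pos i)]
        exact mul_le_mul_of_nonneg_right (ha i (Finset.mem_filter.mp hi).1) (D.pos i).le
    _ = (m : ℤ) * ∑ i ∈ F.filter (fun i => blk i < j), b i := by rw [Finset.mul_sum]
    _ ≤ (m : ℤ) * (TT B j : ℤ) := mul_le_mul_of_nonneg_left (D.low_le F j) (by positivity)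
    _ ≤ ((j + 1 : ℕ) : ℤ) * (TT B j : ℤ) :=
        mul_le_mul_of_nonneg_right (by exact_mod_cast hj) (by positivity)
    _ < (NN B j : ℤ) := by exact_mod_cast TT_lt (B := B) j

lemma Dir.sep_block (D : Dir B b blk be) {a : ℕ → ℤ} {F : Finset ℕ} {m j : ℕ}
    (ha : ∀ i, i ∈ F → |a i| ≤ (m : ℤ)) (h0 : ∑ i ∈ F, a i * b i = 0) (hj : m ≤ j + 1) :
    ∑ i ∈ F.filter (fun i => blk i = j), a i * b i = 0 := by
  have h1 := D.sep ha h0 hj
  have h2 := D.sep ha h0 (show m ≤ (j + 1) + 1 by omega)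
  rw [filter_lt_succ, h1, zero_add] at h2
  exact h2

lemma Dir.sep_one (D : Dir B b blk be) {s t : Finset ℕ} (h : ∑ i ∈ s, b i = ∑ i ∈ t, b i) (j : ℕ) :
    ∑ i ∈ s.filter (fun i => blk i = j), b i = ∑ i ∈ t.filter (fun i => blk i = j), b i := by
  classical
  let a : ℕ → ℤ := fun i => (if i ∈ s then 1 else 0) - (if i ∈ t then 1 else 0)
  have e : ∀ F : Finset ℕ, (∑ i ∈ F, a i * b i) = ∑ i ∈ F ∩ s, b i - ∑ i ∈ F ∩ t, b i := by
    intro F
    have e2 : ∀ x ∈ F, a x * b x = (if x ∈ s then b x else 0) - (if x ∈ t then b x else 0) := by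
      intro x _
      simp only [a, sub_mul, ite_mul, one_mul, zero_mul]
    rw [Finset.sum_congr rfl e2, Finset.sum_sub_distrib, Finset.sum_ite_mem, Finset.sum_ite_mem]
  have ha : ∀ i, i ∈ s ∪ t → |a i| ≤ ((1 : ℕ) : ℤ) := by
    intro i _
    by_cases h1 : i ∈ s
    · by_cases h2 : i ∈ t
      · simp only [a, if_pos h1, if_pos h2]; norm_num
      · simp only [a, if_pos h1, if_neg h2]; norm_num
    · by_cases h2 : i ∈ t
      · simp only [a, if_neg h1, if_pos h2]; norm_num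
      · simp only [a, if_neg h1, if_neg h2]; norm_num
  have h0 : ∑ i ∈ s ∪ t, a i * b i = 0 := by
    rw [e (s ∪ t), Finset.union_inter_cancel_left, Finset.union_inter_cancel_right, h, sub_self]
  have h1 := D.sep_block (j := j) ha h0 (by omega)
  rw [e] at h1
  have h2 : (s ∪ t).filter (fun i => blk i = j) ∩ s = s.filter (fun i => blk i = j) := by
    ext i
    simp only [Finset.mem_inter, Finset.mem_filter, Finset.mem_union]
    constructor
    · rintro ⟨⟨-, h3⟩, h4⟩; exact ⟨h4, h3⟩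
    · rintro ⟨h3, h4⟩; exact ⟨⟨Or.inl h3, h4⟩, h3⟩
  have h3 : (s ∪ t).filter (fun i => blk i = j) ∩ t = t.filter (fun i => blk i = j) := by
    ext i
    simp only [Finset.mem_inter, Finset.mem_filter, Finset.mem_union]
    constructor
    · rintro ⟨⟨-, h3⟩, h4⟩; exact ⟨h4, h3⟩
    · rintro ⟨h3, h4⟩; exact ⟨⟨Or.inr h3, h4⟩, h3⟩
  rw [h2, h3] at h1
  linarith

end NI12
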